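import Mathlib

/-!
# Completely positive maps and the completely positive approximation property
-/

open scoped ComplexOrder Matrix InnerProductSpace

set_option linter.unusedSectionVars false

namespace Pool.Agent.H70N

/-- A linear map between unital C*-algebras is completely positive if, for every `k`, the map it
induces on `k × k` matrices takes every element of the form `x* x` to an element of the form
`y* y`. -/
def IsCP {A B : Type*} [CStarAlgebra A] [CStarAlgebra B] (φ : A →ₗ[ℂ] B) : Prop :=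
  ∀ (k : ℕ) (x : Matrix (Fin k) (Fin k) A), ∃ y : Matrix (Fin k) (Fin k) B,
    (xᴴ * x).map φ = yᴴ * y

/-- Nuclearity in the form of the completely positive approximation property: the identity of `A`
is a limit, in the topology of pointwise norm convergence, of maps `ψ ∘ φ` with `φ : A → M` and
`ψ : M → A` unital, completely positive and contractive, and `M` a finite-dimensional
C*-algebra. -/
def Nuclear (A : Type) [CStarAlgebra A] : Prop :=
  ∀ (F : Finset A) (ε : ℝ), 0 < ε → ∃ (M : Type) (_ : CStarAlgebra M) (_ : FiniteDimensional ℂ M)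
    (φ : A →ₗ[ℂ] M) (ψ : M →ₗ[ℂ] A), IsCP φ ∧ IsCP ψ ∧ φ 1 = 1 ∧ ψ 1 = 1 ∧
      (∀ a, ‖φ a‖ ≤ ‖a‖) ∧ (∀ m, ‖ψ m‖ ≤ ‖m‖) ∧ ∀ a ∈ F, ‖ψ (φ a) - a‖ < ε

lemma exists_sq_sum {A : Type*} [NonUnitalCStarAlgebra A] {ι : Type*} (s : Finset ι) (z : ι → A) :
    ∃ w, ∑ i ∈ s, star (z i) * z i = star w * w := by
  let _ := CStarAlgebra.spectralOrder A
  have := CStarAlgebra.spectralOrderedRing A
  exact CStarAlgebra.nonneg_iff_eq_star_mul_self.1
    (Finset.sum_nonneg fun i _ => star_mul_self_nonneg _)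

lemma exists_msq_sum {A : Type*} [CStarAlgebra A] {ι : Type*} (s : Finset ι) {k : ℕ}
    (z : ι → Matrix (Fin k) (Fin k) A) :
    ∃ w : Matrix (Fin k) (Fin k) A, ∑ i ∈ s, (z i)ᴴ * z i = wᴴ * w := by
  let _ := CStarAlgebra.spectralOrder A
  have := CStarAlgebra.spectralOrderedRing A
  obtain ⟨w, hw⟩ := exists_sq_sum (A := CStarMatrix (Fin k) (Fin k) A) s
    (fun i => CStarMatrix.ofMatrix (z i))
  refine ⟨CStarMatrix.ofMatrix.symm w, ?_⟩
  exact hw

section

variable {A B C : Type*} [CStarAlgebra A] [CStarAlgebra B] [CStarAlgebra C]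

lemma IsCP.of_hom (φ : A →ₗ[ℂ] B) (h1 : ∀ x y, φ (x * y) = φ x * φ y)
    (h2 : ∀ x, φ (star x) = star (φ x)) : IsCP φ := by
  intro k x
  refine ⟨x.map φ, ?_⟩
  ext i j
  simp only [Matrix.map_apply, Matrix.mul_apply, Matrix.conjTranspose_apply, map_sum, h1, h2]

lemma IsCP.comp {ψ : B →ₗ[ℂ] C} {φ : A →ₗ[ℂ] B} (hψ : IsCP ψ) (hφ : IsCP φ) :
    IsCP (ψ ∘ₗ φ) := by
  intro k x
  obtain ⟨y, hy⟩ := hφ k x
  obtain ⟨z, hz⟩ := hψ k y
  refine ⟨z, ?_⟩
  rw [← hz, ← hy]
  rfl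

lemma IsCP.sum {ι : Type*} (s : Finset ι) (φ : ι → A →ₗ[ℂ] B) (h : ∀ i ∈ s, IsCP (φ i)) :
    IsCP (∑ i ∈ s, φ i) := by
  classical
  intro k x
  have h' : ∀ i, ∃ y : Matrix (Fin k) (Fin k) B, i ∈ s → (xᴴ * x).map (φ i) = yᴴ * y := by
    intro i
    by_cases hi : i ∈ s
    · obtain ⟨y, hy⟩ := h i hi k x
      exact ⟨y, fun _ => hy⟩
    · exact ⟨0, fun h => absurd h hi⟩
  choose y hy using h'
  obtain ⟨w, hw⟩ := exists_msq_sum s y
  refine ⟨w, ?_⟩
  rw [← hw, ← Finset.sum_congr rfl hy]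
  ext p q
  simp only [Matrix.map_apply, LinearMap.sum_apply, Matrix.sum_apply]

/-- The map `m ↦ ∑ ⟪b k, m b l⟫ a k a l*` on the operators of a Hilbert space. -/
noncomputable def rowmap {H : Type*} [NormedAddCommGroup H] [InnerProductSpace ℂ H]
    [CompleteSpace H] {κ : Type*} [Fintype κ] (b : OrthonormalBasis κ ℂ H) (a : κ → A) :
    (H →L[ℂ] H) →ₗ[ℂ] A where
  toFun m := ∑ k, ∑ l, ⟪b k, m (b l)⟫_ℂ • (a k * star (a l))
  map_add' m m' := by
    simp only [add_apply, inner_add_right, add_smul, Finset.sum_add_distrib]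
  map_smul' c m := by
    simp only [smul_apply, inner_smul_right, mul_smul, Finset.smul_sum, RingHom.id_apply]

lemma rowmap_apply {H : Type*} [NormedAddCommGroup H] [InnerProductSpace ℂ H]
    [CompleteSpace H] {κ : Type*} [Fintype κ] (b : OrthonormalBasis κ ℂ H) (a : κ → A)
    (m : H →L[ℂ] H) :
    rowmap b a m = ∑ k, ∑ l, ⟪b k, m (b l)⟫_ℂ • (a k * star (a l)) := rfl

lemma rowmap_one {H : Type*} [NormedAddCommGroup H] [InnerProductSpace ℂ H]
    [CompleteSpace H] {κ : Type*} [Fintype κ] (b : OrthonormalBasis κ ℂ H) (a : κ → A) :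
    rowmap b a 1 = ∑ k, a k * star (a k) := by
  classical
  rw [rowmap_apply]
  refine Finset.sum_congr rfl fun k _ => ?_
  rw [Finset.sum_eq_single k]
  · rw [one_apply_eq_self, inner_self_eq_norm_sq_to_K, b.norm_eq_one]
    simp
  · intro l _ hl
    rw [one_apply_eq_self, b.inner_eq_zero hl.symm, zero_smul]
  · intro h
    exact absurd (Finset.mem_univ _) h

lemma rowmap_isCP {H : Type*} [NormedAddCommGroup H] [InnerProductSpace ℂ H]
    [CompleteSpace H] {κ : Type*} [Fintype κ] (b : OrthonormalBasis κ ℂ H) (a : κ → A) :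
    IsCP (rowmap b a) := by
  intro n x
  obtain ⟨w, hw⟩ := exists_msq_sum (Finset.univ : Finset κ)
    (fun s => (fun r p => ∑ l, ⟪b s, x r p (b l)⟫_ℂ • star (a l) : Matrix (Fin n) (Fin n) A))
  refine ⟨w, ?_⟩
  rw [← hw]
  ext p q
  have key : ∀ r : Fin n, rowmap b a (star (x r p) * x r q) =
      ∑ s, star (∑ l, ⟪b s, x r p (b l)⟫_ℂ • star (a l)) *
        (∑ l, ⟪b s, x r q (b l)⟫_ℂ • star (a l)) := by
    intro r
    rw [rowmap_apply]
    have h1 : ∀ k l, ⟪b k, (star (x r p) * x r q) (b l)⟫_ℂ =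
        ∑ s, ⟪x r p (b k), b s⟫_ℂ * ⟪b s, x r q (b l)⟫_ℂ := by
      intro k l
      rw [b.sum_inner_mul_inner]
      exact ContinuousLinearMap.adjoint_inner_right _ _ _
    have h2 : ∀ k s, star ⟪b s, x r p (b k)⟫_ℂ = ⟪x r p (b k), b s⟫_ℂ := fun k s =>
      inner_conj_symm _ _
    simp_rw [h1, star_sum, star_smul, star_star, Finset.sum_mul_sum, Finset.sum_smul, h2,
      smul_mul_smul_comm]
    exact (Finset.sum_congr rfl fun k _ => Finset.sum_comm).trans Finset.sum_comm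
  rw [Matrix.map_apply, Matrix.mul_apply, map_sum, Matrix.sum_apply]
  simp_rw [Matrix.conjTranspose_apply, Matrix.mul_apply]
  rw [Finset.sum_comm]
  refine Finset.sum_congr rfl fun r _ => ?_
  exact key r

/-- Unital completely positive maps are contractive. -/
lemma IsCP.norm_le {φ : A →ₗ[ℂ] B} (h : IsCP φ) (h1 : φ 1 = 1) (a : A) : ‖φ a‖ ≤ ‖a‖ := by
  let _ := CStarAlgebra.spectralOrder A
  have := CStarAlgebra.spectralOrderedRing A
  let _ := CStarAlgebra.spectralOrder B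
  have := CStarAlgebra.spectralOrderedRing B
  have hpos : ∀ a : A, 0 ≤ a → 0 ≤ φ a := by
    intro a ha
    obtain ⟨c, rfl⟩ := CStarAlgebra.nonneg_iff_eq_star_mul_self.1 ha
    obtain ⟨y, hy⟩ := h 1 (fun _ _ => c)
    have h2 := congrFun (congrFun hy 0) 0
    simp only [Matrix.map_apply, Matrix.mul_apply, Matrix.conjTranspose_apply,
      Finset.univ_unique, Finset.sum_singleton] at h2
    rw [h2]
    exact star_mul_self_nonneg _
  have hnorm : ∀ a : A, 0 ≤ a → ‖φ a‖ ≤ ‖a‖ := by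
    intro a ha
    rw [CStarAlgebra.norm_le_iff_le_algebraMap _ (norm_nonneg _) (hpos a ha)]
    have h2 : a ≤ algebraMap ℝ A ‖a‖ := IsSelfAdjoint.le_algebraMap_norm_self (.of_nonneg ha)
    have h3 := hpos _ (sub_nonneg.2 h2)
    rw [map_sub, sub_nonneg] at h3
    refine h3.trans (le_of_eq ?_)
    rw [Algebra.algebraMap_eq_smul_one, Algebra.algebraMap_eq_smul_one]
    have e1 : (‖a‖ • (1 : A)) = ((‖a‖ : ℂ) • (1 : A)) := (Complex.coe_smul ‖a‖ (1 : A)).symm
    have e2 : (‖a‖ • (1 : B)) = ((‖a‖ : ℂ) • (1 : B)) := (Complex.coe_smul ‖a‖ (1 : B)).symm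
    rw [e1, e2, map_smul, h1]
  obtain ⟨y, hy⟩ := h 2 !![1, a; 0, 0]
  have h00 := congrFun (congrFun hy 0) 0
  have h01 := congrFun (congrFun hy 0) 1
  have h10 := congrFun (congrFun hy 1) 0
  have h11 := congrFun (congrFun hy 1) 1
  simp [Matrix.mul_apply, Matrix.conjTranspose_apply, Fin.sum_univ_two] at h00 h01 h10 h11
  rw [h1] at h00
  have h10' : star (φ a) = star (y 0 1) * y 0 0 + star (y 1 1) * y 1 0 := by
    rw [h01, star_add, star_mul, star_mul, star_star, star_star]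
  have key : star (y 0 1 - y 0 0 * φ a) * (y 0 1 - y 0 0 * φ a) +
      star (y 1 1 - y 1 0 * φ a) * (y 1 1 - y 1 0 * φ a) = φ (star a * a) - star (φ a) * φ a := by
    have e : star (y 0 1 - y 0 0 * φ a) * (y 0 1 - y 0 0 * φ a) +
      star (y 1 1 - y 1 0 * φ a) * (y 1 1 - y 1 0 * φ a) =
      (star (y 0 1) * y 0 1 + star (y 1 1) * y 1 1) -
      (star (y 0 1) * y 0 0 + star (y 1 1) * y 1 0) * φ a -
      star (φ a) * (star (y 0 0) * y 0 1 + star (y 1 0) * y 1 1) +
      star (φ a) * (star (y 0 0) * y 0 0 + star (y 1 0) * y 1 0) * φ a := by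
      simp only [star_sub, star_mul]
      noncomm_ring
    rw [e, ← h00, ← h01, ← h10', ← h11]
    noncomm_ring
  have h5 : star (φ a) * φ a ≤ φ (star a * a) := by
    rw [← sub_nonneg, ← key]
    exact add_nonneg (star_mul_self_nonneg _) (star_mul_self_nonneg _)
  have h6 : ‖φ a‖ * ‖φ a‖ ≤ ‖a‖ * ‖a‖ := by
    rw [← CStarRing.norm_star_mul_self, ← CStarRing.norm_star_mul_self (x := a)]
    exact (CStarAlgebra.norm_le_norm_of_nonneg_of_le (star_mul_self_nonneg _) h5).trans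
      (hnorm _ (star_mul_self_nonneg _))
  exact (mul_self_le_mul_self_iff (norm_nonneg _) (norm_nonneg _)).2 h6
end

end Pool.Agent.H70N
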