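import Mathlib
import Pool.Agent.Helper133.TP6

/-!
# Finite-dimensional approximation of the elements of one level
-/

open scoped ComplexOrder Topology InnerProductSpace
open Filter
open InnerProductSpace (rankOne)

set_option linter.unusedSectionVars false

namespace Pool.Agent.H70N

open Pool.Agent.Helper133.TP

noncomputable section

variable {n : ℕ} {Y : Type} [TopologicalSpace Y] [CompactSpace Y] {E : Type}
  [NormedAddCommGroup E] [InnerProductSpace ℂ E] [CompleteSpace E] [FiniteDimensional ℂ E]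
  {κ : Type} [Fintype κ] (L : LD n Y E κ)

lemma continuous_rankOne {f g : Y → E} (hf : Continuous f) (hg : Continuous g) :
    Continuous fun t => rankOne ℂ (f t) (g t) :=
  ((ContinuousLinearMap.smulRightL ℂ E E).continuous₂).comp
    (((innerSL ℂ (E := E)).continuous.comp hg).prodMk hf)

lemma S₀_cont {x : Y → (E →L[ℂ] E)} (hx : x ∈ L.S₀) : Continuous x := by
  induction hx using Submodule.span_induction with
  | mem x hx =>
    obtain ⟨f, u, v, rfl⟩ := hx
    exact f.continuous.smul (continuous_rankOne (L.β u).continuous (L.β v).continuous)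
  | zero => exact continuous_const
  | add x y _ _ h1 h2 => exact h1.add h2
  | smul c x _ h => exact h.const_smul c

/-- Sections: combinations of the generating fields. -/
def IsSec (ξ : Y → E) : Prop := ∃ f : Option κ → C(Y, ℂ), ∀ t, ξ t = ∑ u, f u t • L.β u t

lemma IsSec.rank_mem {ξ : Y → E} (h : IsSec L ξ) : (fun t => rankOne ℂ (ξ t) L.e) ∈ L.S₀ := by
  obtain ⟨f, hf⟩ := h
  have : (fun t => rankOne ℂ (ξ t) L.e) = ∑ u, L.g (f u) u none := by
    funext t
    rw [Finset.sum_apply, hf t, map_sum, sum_apply]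
    refine Finset.sum_congr rfl fun u _ => ?_
    rw [map_smul]
    rfl
  rw [this]
  exact Submodule.sum_mem _ fun u _ => L.g_mem _ _ _

lemma IsSec.smul {ξ : Y → E} (h : IsSec L ξ) (g : C(Y, ℂ)) : IsSec L (fun t => g t • ξ t) := by
  obtain ⟨f, hf⟩ := h
  refine ⟨fun u => g * f u, fun t => ?_⟩
  show g t • ξ t = _
  rw [hf t, Finset.smul_sum]
  refine Finset.sum_congr rfl fun u _ => ?_
  rw [smul_smul]
  rfl

lemma IsSec.continuous {ξ : Y → E} (h : IsSec L ξ) : Continuous ξ := by
  obtain ⟨f, hf⟩ := h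
  have : ξ = fun t => ∑ u, f u t • L.β u t := funext hf
  rw [this]
  exact continuous_finsetSum _ fun u _ => (f u).continuous.smul (L.β u).continuous

/-- The operator with given values on the basis. -/
def Vop (ξ : κ → E) : E →L[ℂ] E := ∑ k, rankOne ℂ (ξ k) (L.b k)

lemma Vop_apply (ξ : κ → E) (v : E) : Vop L ξ v = ∑ k, ⟪L.b k, v⟫_ℂ • ξ k := by
  rw [Vop, sum_apply]
  rfl

lemma Vop_smul (c : ℂ) (ξ : κ → E) : Vop L (fun k => c • ξ k) = c • Vop L ξ := by
  rw [Vop, Vop, Finset.smul_sum]
  refine Finset.sum_congr rfl fun k _ => ?_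
  rw [map_smul]
  rfl

lemma Vop_continuous {ξ : κ → Y → E} (h : ∀ k, Continuous (ξ k)) :
    Continuous fun t => Vop L (fun k => ξ k t) :=
  continuous_finsetSum _ fun k _ => continuous_rankOne (h k) continuous_const

/-- Local sections through the projection at a point. -/
lemma exists_local (s : Y) : ∃ ξ : κ → Y → E, (∀ k, IsSec L (ξ k)) ∧
    (∀ t, ‖Vop L (fun k => ξ k t)‖ ≤ 1) ∧
    ∀ x ∈ L.S₀, Vop L (fun k => ξ k s) * x s * star (Vop L (fun k => ξ k s)) = x s := by
  classical
  set W : Submodule ℂ E := Submodule.span ℂ (Set.range fun u => L.β u s) with hW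
  have h1 : ∀ k, ∃ c : Option κ → ℂ, ∑ u, c u • L.β u s = W.starProjection (L.b k) := by
    intro k
    have h : W.starProjection (L.b k) ∈ W := Submodule.starProjection_apply_mem W _
    rw [hW, Submodule.mem_span_range_iff_exists_fun] at h
    exact h
  choose c hc using h1
  let ξ₀ : κ → Y → E := fun k t => ∑ u, c k u • L.β u t
  have hξ₀ : ∀ k, IsSec L (ξ₀ k) := fun k => ⟨fun u => ContinuousMap.const Y (c k u), fun t => rfl⟩
  let V₀ : Y → (E →L[ℂ] E) := fun t => Vop L (fun k => ξ₀ k t)
  have hV₀ : Continuous V₀ := Vop_continuous L fun k => (hξ₀ k).continuous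
  let g : C(Y, ℂ) := ⟨fun t => (((max 1 ‖V₀ t‖)⁻¹ : ℝ) : ℂ), by
    have : ∀ t, max 1 ‖V₀ t‖ ≠ 0 := fun t => by positivity
    fun_prop (disch := assumption)⟩
  have hVs : V₀ s = W.starProjection := by
    ext v
    show Vop L (fun k => ξ₀ k s) v = _
    rw [Vop_apply]
    conv_rhs => rw [← L.b.sum_repr' v]
    rw [map_sum]
    refine Finset.sum_congr rfl fun k _ => ?_
    rw [map_smul, ← hc k]
  have hgs : g s = 1 := by
    show (((max 1 ‖V₀ s‖)⁻¹ : ℝ) : ℂ) = 1
    rw [hVs, max_eq_left W.starProjection_norm_le]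
    simp
  refine ⟨fun k t => g t • ξ₀ k t, fun k => (hξ₀ k).smul L g, fun t => ?_, fun x hx => ?_⟩
  · rw [Vop_smul, norm_smul]
    show ‖(((max 1 ‖V₀ t‖)⁻¹ : ℝ) : ℂ)‖ * ‖V₀ t‖ ≤ 1
    rw [Complex.norm_real, Real.norm_eq_abs, abs_of_nonneg (by positivity),
      inv_mul_le_iff₀ (by positivity), mul_one]
    exact le_max_right _ _
  · rw [Vop_smul, hgs, one_smul]
    show V₀ s * x s * star (V₀ s) = x s
    rw [hVs]
    have hP : ∀ u, W.starProjection (L.β u s) = L.β u s := fun u =>
      Submodule.starProjection_eq_self_iff.2 (Submodule.subset_span ⟨u, rfl⟩)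
    have hPs : star W.starProjection = W.starProjection := by
      rw [ContinuousLinearMap.star_eq_adjoint]
      exact ContinuousLinearMap.isSelfAdjoint_iff'.1 (isSelfAdjoint_starProjection W)
    rw [hPs]
    induction hx using Submodule.span_induction with
    | mem x hx =>
      obtain ⟨f, u, v, rfl⟩ := hx
      rw [L.g_apply, mul_smul_comm, smul_mul_assoc]
      congr 1
      ext w
      show W.starProjection (rankOne ℂ (L.β u s) (L.β v s) (W.starProjection w)) = _
      rw [InnerProductSpace.rankOne_apply, map_smul, hP, InnerProductSpace.rankOne_apply,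
        ← Submodule.inner_starProjection_left_eq_right, hP]
    | zero => simp
    | add x y _ _ h1 h2 =>
      rw [Pi.add_apply, mul_add, add_mul, h1, h2]
    | smul a x _ h =>
      rw [Pi.smul_apply, mul_smul_comm, smul_mul_assoc, h]

/-- Approximation of finitely many elements of a level. -/
lemma level_approx [T2Space Y] {α : Type} (F : Finset α) (x : α → Y → (E →L[ℂ] E))
    (hx : ∀ a ∈ F, x a ∈ L.S₀) {ε : ℝ} (hε : 0 < ε) :
    ∃ (J : Type) (_ : Fintype J) (p : J → Y) (ξ : J → κ → Y → E),
      (∀ j k, IsSec L (ξ j k)) ∧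
      (∀ t, ‖∑ j, Vop L (fun k => ξ j k t) * star (Vop L (fun k => ξ j k t))‖ ≤ 1) ∧
      ∀ a ∈ F, ∀ t, ‖∑ j, Vop L (fun k => ξ j k t) * x a (p j) * star (Vop L (fun k => ξ j k t)) -
        x a t‖ ≤ ε := by
  classical
  choose η h1 h2 h3 using exists_local L
  let V : Y → Y → (E →L[ℂ] E) := fun s t => Vop L (fun k => η s k t)
  have hV : ∀ s, Continuous (V s) := fun s => Vop_continuous L fun k => (h1 s k).continuous
  let U : Y → Set Y := fun s => {t | ∀ a ∈ F, ‖V s t * x a s * star (V s t) - x a t‖ < ε}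
  have hUo : ∀ s, IsOpen (U s) := by
    intro s
    have : U s = ⋂ a ∈ F, {t | ‖V s t * x a s * star (V s t) - x a t‖ < ε} := by
      ext t
      simp [U]
    rw [this]
    refine isOpen_biInter_finset fun a ha => ?_
    refine isOpen_lt ?_ continuous_const
    have := S₀_cont L (hx a ha)
    have := hV s
    fun_prop
  have hUs : ∀ s, s ∈ U s := by
    intro s a ha
    show ‖V s s * x a s * star (V s s) - x a s‖ < ε
    rw [h3 s _ (hx a ha), sub_self, norm_zero]
    exact hε
  obtain ⟨T, hT⟩ := CompactSpace.elim_nhds_subcover U (fun s => (hUo s).mem_nhds (hUs s))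
  obtain ⟨χ, hχ⟩ := PartitionOfUnity.exists_isSubordinate (s := (Set.univ : Set Y)) isClosed_univ
    (fun j : T => U j) (fun j => hUo j) (by
      intro t _
      have : t ∈ (⊤ : Set Y) := trivial
      rw [← hT] at this
      simp only [Set.mem_iUnion] at this ⊢
      obtain ⟨s, hs, hts⟩ := this
      exact ⟨⟨s, hs⟩, hts⟩)
  have hsum : ∀ t, ∑ j : T, χ j t = 1 := by
    intro t
    rw [← finsum_eq_sum_of_fintype]
    exact χ.sum_eq_one (Set.mem_univ t)
  let r : T → C(Y, ℂ) := fun j => ⟨fun t => ((Real.sqrt (χ j t) : ℝ) : ℂ),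
    Complex.continuous_ofReal.comp (Real.continuous_sqrt.comp (χ j).continuous)⟩
  have hr : ∀ j t (m : E →L[ℂ] E), Vop L (fun k => r j t • η j k t) * m *
      star (Vop L (fun k => r j t • η j k t)) =
      ((χ j t : ℝ) : ℂ) • (V j t * m * star (V j t)) := by
    intro j t m
    rw [Vop_smul, star_smul, smul_mul_assoc, smul_mul_assoc, mul_smul_comm, smul_smul]
    congr 1
    show ((Real.sqrt (χ j t) : ℝ) : ℂ) * (starRingEnd ℂ) ((Real.sqrt (χ j t) : ℝ) : ℂ) = _
    rw [Complex.conj_ofReal, ← Complex.ofReal_mul, Real.mul_self_sqrt (χ.nonneg j t)]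
  refine ⟨T, inferInstance, fun j => j, fun j k t => r j t • η j k t,
    fun j k => (h1 j k).smul L (r j), fun t => ?_, fun a ha t => ?_⟩
  · have e : ∀ j : T, Vop L (fun k => r j t • η j k t) * star (Vop L (fun k => r j t • η j k t)) =
        ((χ j t : ℝ) : ℂ) • (V j t * star (V j t)) := by
      intro j
      have := hr j t 1
      rwa [mul_one, mul_one] at this
    simp_rw [e]
    calc _ ≤ ∑ j : T, ‖((χ j t : ℝ) : ℂ) • (V j t * star (V j t))‖ := norm_sum_le _ _
      _ ≤ ∑ j : T, χ j t := by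
          refine Finset.sum_le_sum fun j _ => ?_
          rw [norm_smul, Complex.norm_real, Real.norm_eq_abs, abs_of_nonneg (χ.nonneg j t),
            CStarRing.norm_self_mul_star]
          exact mul_le_of_le_one_right (χ.nonneg j t)
            (mul_le_one₀ (h2 j t) (norm_nonneg _) (h2 j t))
      _ = 1 := hsum t
  · simp_rw [hr]
    have e : ∑ j : T, ((χ j t : ℝ) : ℂ) • (V j t * x a j * star (V j t)) - x a t =
        ∑ j : T, ((χ j t : ℝ) : ℂ) • (V j t * x a j * star (V j t) - x a t) := by
      simp_rw [smul_sub]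
      rw [Finset.sum_sub_distrib, ← Finset.sum_smul, ← Complex.ofReal_sum, hsum,
        Complex.ofReal_one, one_smul]
    rw [e]
    calc _ ≤ ∑ j : T, ‖((χ j t : ℝ) : ℂ) • (V j t * x a j * star (V j t) - x a t)‖ :=
          norm_sum_le _ _
      _ ≤ ∑ j : T, χ j t * ε := by
          refine Finset.sum_le_sum fun j _ => ?_
          rw [norm_smul, Complex.norm_real, Real.norm_eq_abs, abs_of_nonneg (χ.nonneg j t)]
          by_cases h0 : χ j t = 0
          · rw [h0, zero_mul, zero_mul]
          · refine mul_le_mul_of_nonneg_left ?_ (χ.nonneg j t)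
            exact (hχ j (subset_tsupport _ h0) a ha).le
      _ = ε := by rw [← Finset.sum_mul, hsum, one_mul]

end

end Pool.Agent.H70N
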