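import Mathlib
import Pool.Agent.H70N.CP
import Pool.Agent.H70N.Level

/-!
# The algebras of fields have the completely positive approximation property
-/

open scoped ComplexOrder Topology InnerProductSpace ENNReal
open Filter
open InnerProductSpace (rankOne)

set_option linter.unusedSectionVars false

namespace Pool.Agent.H70N

open Pool.Agent.Helper133.TP

noncomputable section

lemma IsCP.add {A B : Type*} [CStarAlgebra A] [CStarAlgebra B] {φ ψ : A →ₗ[ℂ] B} (h1 : IsCP φ)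
    (h2 : IsCP ψ) : IsCP (φ + ψ) := by
  have h := IsCP.sum (Finset.univ : Finset Bool) (fun b => cond b φ ψ) (by
    rintro (_ | _) _
    · exact h2
    · exact h1)
  rwa [Fintype.sum_bool] at h

lemma rowmap_vec {A : Type*} [CStarAlgebra A] {H : Type*} [NormedAddCommGroup H]
    [InnerProductSpace ℂ H] [CompleteSpace H] {κ : Type*} [Fintype κ]
    (b : OrthonormalBasis κ ℂ H) (e : H) (s : A) (m : H →L[ℂ] H) :
    rowmap b (fun k => ⟪e, b k⟫_ℂ • s) m = ⟪e, m e⟫_ℂ • (s * star s) := by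
  rw [rowmap_apply]
  have h1 : ∀ k l, ⟪b k, m (b l)⟫_ℂ • ((⟪e, b k⟫_ℂ • s) * star (⟪e, b l⟫_ℂ • s)) =
      (⟪e, b k⟫_ℂ * (⟪b l, e⟫_ℂ * ⟪b k, m (b l)⟫_ℂ)) • (s * star s) := by
    intro k l
    have h2 : star ⟪e, b l⟫_ℂ = ⟪b l, e⟫_ℂ := inner_conj_symm _ _
    rw [star_smul, smul_mul_smul_comm, smul_smul, h2]
    congr 1
    ring
  simp_rw [h1, ← Finset.sum_smul, ← Finset.mul_sum]
  congr 1
  have h3 : ∀ k, ∑ l, ⟪b l, e⟫_ℂ * ⟪b k, m (b l)⟫_ℂ = ⟪b k, m e⟫_ℂ := by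
    intro k
    conv_rhs => rw [← b.sum_repr' e]
    rw [map_sum, inner_sum]
    refine Finset.sum_congr rfl fun l _ => ?_
    rw [map_smul, inner_smul_right]
  simp_rw [h3]
  exact b.sum_inner_mul_inner _ _

variable {Y : ℕ → Type} [∀ n, TopologicalSpace (Y n)] [∀ n, CompactSpace (Y n)]
  {E : ℕ → Type} [∀ n, NormedAddCommGroup (E n)] [∀ n, InnerProductSpace ℂ (E n)]
  [∀ n, CompleteSpace (E n)] [∀ n, Nontrivial (E n)] [∀ n, FiniteDimensional ℂ (E n)]
  {κ : ℕ → Type} [∀ n, Fintype (κ n)]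
  (L : ∀ n, LD n (Y n) (E n) (κ n))

/-- The row element of the algebra given by a section. -/
def row (n : ℕ) (ξ : κ n → Y n → E n) (h : ∀ k, IsSec (L n) (ξ k)) (k : κ n) : Alg L :=
  (lev L).J n (fun t => rankOne ℂ (ξ k t) (L n).e) (IsSec.rank_mem (L n) (h k))

lemma ev_row_same (n : ℕ) (ξ : κ n → Y n → E n) (h : ∀ k, IsSec (L n) (ξ k))
    (m : E n →L[ℂ] E n) (t : Y n) :
    (lev L).ev n t (rowmap (L n).b (row L n ξ h) m) =
      Vop (L n) (fun k => ξ k t) * m * star (Vop (L n) (fun k => ξ k t)) := by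
  have h0 : ∀ k l, (lev L).ev n t (row L n ξ h k) * star ((lev L).ev n t (row L n ξ h l)) =
      rankOne ℂ (ξ k t) (ξ l t) := by
    intro k l
    rw [row, row, (lev L).ev_J_same, (lev L).ev_J_same, ContinuousLinearMap.star_eq_adjoint,
      InnerProductSpace.adjoint_rankOne, ContinuousLinearMap.mul_def,
      InnerProductSpace.rankOne_comp_rankOne, (L n).e_inner, one_smul]
  have h1 : star (Vop (L n) (fun k => ξ k t)) = ∑ l, rankOne ℂ ((L n).b l) (ξ l t) := by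
    rw [Vop, star_sum]
    refine Finset.sum_congr rfl fun l _ => ?_
    rw [ContinuousLinearMap.star_eq_adjoint, InnerProductSpace.adjoint_rankOne]
  rw [rowmap_apply, map_sum]
  simp_rw [map_sum, map_smul, map_mul, map_star, h0]
  rw [h1]
  ext v
  rw [sum_apply]
  show _ = Vop (L n) (fun k => ξ k t) (m ((∑ l, rankOne ℂ ((L n).b l) (ξ l t)) v))
  rw [Vop_apply]
  refine Finset.sum_congr rfl fun k _ => ?_
  rw [sum_apply, sum_apply, map_sum, inner_sum, Finset.sum_smul]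
  refine Finset.sum_congr rfl fun l _ => ?_
  rw [smul_apply, InnerProductSpace.rankOne_apply, InnerProductSpace.rankOne_apply, map_smul,
    inner_smul_right, smul_smul, mul_comm]

lemma ev_row_ne {n m : ℕ} (hm : m ≠ n) (ξ : κ n → Y n → E n) (h : ∀ k, IsSec (L n) (ξ k))
    (x : E n →L[ℂ] E n) (t : Y m) :
    (lev L).ev m t (rowmap (L n).b (row L n ξ h) x) = 0 := by
  rw [rowmap_apply, map_sum]
  refine Finset.sum_eq_zero fun k _ => ?_
  rw [map_sum]
  refine Finset.sum_eq_zero fun l _ => ?_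
  rw [map_smul, map_mul, row, (lev L).ev_J_ne hm, zero_mul, smul_zero]

section Sum

variable {K : ℕ} {J : ℕ → Type} [∀ n, Fintype (J n)] {ξ : ∀ n, J n → κ n → Y n → E n}
  (h : ∀ n j k, IsSec (L n) (ξ n j k))

lemma ev_sum_lt (G : ∀ i : (Σ n : Fin K, J n), (E i.1 →L[ℂ] E i.1)) {n : ℕ} (hn : n < K)
    (t : Y n) :
    (lev L).ev n t (∑ i : (Σ n : Fin K, J n), rowmap (L i.1).b
      (row L i.1 (ξ i.1 i.2) (h i.1 i.2)) (G i)) =
      ∑ j : J n, Vop (L n) (fun k => ξ n j k t) * G ⟨⟨n, hn⟩, j⟩ *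
        star (Vop (L n) (fun k => ξ n j k t)) := by
  rw [Fintype.sum_sigma, map_sum, Finset.sum_eq_single (⟨n, hn⟩ : Fin K)]
  · rw [map_sum]
    refine Finset.sum_congr rfl fun j _ => ?_
    exact ev_row_same L n (ξ n j) (h n j) _ t
  · intro m _ hm
    rw [map_sum]
    refine Finset.sum_eq_zero fun j _ => ?_
    exact ev_row_ne L (fun h' => hm (Fin.ext h'.symm)) _ _ _ t
  · intro h'
    exact absurd (Finset.mem_univ _) h'

lemma ev_sum_ge (G : ∀ i : (Σ n : Fin K, J n), (E i.1 →L[ℂ] E i.1)) {n : ℕ} (hn : K ≤ n)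
    (t : Y n) :
    (lev L).ev n t (∑ i : (Σ n : Fin K, J n), rowmap (L i.1).b
      (row L i.1 (ξ i.1 i.2) (h i.1 i.2)) (G i)) = 0 := by
  rw [map_sum]
  refine Finset.sum_eq_zero fun i _ => ?_
  exact ev_row_ne L (fun h' => by have := i.1.2; omega) _ _ _ t

end Sum

/-- Approximation of the elements of the algebra. -/
lemma exists_approx (a : Alg L) {ε : ℝ} (hε : 0 < ε) :
    ∃ (b : Alg L) (c : ℂ) (x : ∀ n, Y n → (E n →L[ℂ] E n)) (N : ℕ),
      (∀ n, x n ∈ (L n).S₀) ∧ (∀ n ≥ N, x n = 0) ∧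
      (∀ n t, (lev L).ev n t b = c • 1 + x n t) ∧ ‖a - b‖ < ε := by
  have h : (a : Lev.D Y (fun n => E n →L[ℂ] E n)) ∈
      closure ((lev L).A₀ : Set (Lev.D Y (fun n => E n →L[ℂ] E n))) := a.2
  obtain ⟨b, ⟨c, hc, N, hN⟩, hb⟩ := Metric.mem_closure_iff.1 h ε hε
  refine ⟨⟨b, StarSubalgebra.le_topologicalClosure _ (show b ∈ (lev L).A₀ from ⟨c, hc, N, hN⟩)⟩,
    c, fun n => Lev.res (Y := Y) (B := fun n => E n →L[ℂ] E n) b n - c • 1, N, hc,
    fun n hn => ?_, fun n t => ?_, ?_⟩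
  · show Lev.res (Y := Y) (B := fun n => E n →L[ℂ] E n) b n - c • 1 = 0
    rw [hN n hn, sub_self]
  · exact (add_sub_cancel (c • (1 : E n →L[ℂ] E n))
      (Lev.res (Y := Y) (B := fun n => E n →L[ℂ] E n) b n t)).symm
  · rw [dist_eq_norm] at hb
    exact hb

/-- The algebra has the completely positive approximation property. -/
theorem nuclear_Alg [∀ n, T2Space (Y n)] : Nuclear (Alg L) := by
  classical
  intro F ε hε
  choose b c x N hx hN hb hab using fun a : Alg L => exists_approx L a (ε := ε / 3) (by positivity)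
  set K := F.sup N with hK
  have hlev := fun n => level_approx (L n) F (fun a => x a n) (fun a _ => hx a n)
    (ε := ε / 4) (by positivity)
  choose J instJ p ξ h1 h2 h3 using hlev
  obtain ⟨tK, -⟩ := (L K).T_kill (fun _ _ => 0) (fun _ => continuous_const) 1 one_pos
  set Q : Alg L := ∑ i : (Σ n : Fin K, J n), rowmap (L i.1).b
      (row L i.1 (ξ i.1 i.2) (h1 i.1 i.2)) 1 with hQ
  have hQn : ‖Q‖ ≤ 1 := by
    refine (lev L).norm_le zero_le_one fun n t => ?_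
    rcases lt_or_ge n K with hn | hn
    · rw [hQ, ev_sum_lt L h1 (fun _ => 1) hn]
      simp_rw [mul_one]
      exact h2 n t
    · rw [hQ, ev_sum_ge L h1 (fun _ => 1) hn, norm_zero]
      exact zero_le_one
  have hQs : IsSelfAdjoint Q := by
    rw [hQ]
    refine isSelfAdjoint_sum _ fun i _ => ?_
    rw [rowmap_one]
    exact isSelfAdjoint_sum _ fun k _ => IsSelfAdjoint.mul_star_self _
  obtain ⟨r, hr⟩ : ∃ r : Alg L, 1 - Q = star r * r := by
    let _ := CStarAlgebra.spectralOrder (Alg L)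
    have := CStarAlgebra.spectralOrderedRing (Alg L)
    refine CStarAlgebra.nonneg_iff_eq_star_mul_self.1 ?_
    rw [sub_nonneg]
    refine (hQs.le_algebraMap_norm_self).trans ?_
    have : algebraMap ℝ (Alg L) ‖Q‖ ≤ algebraMap ℝ (Alg L) 1 := algebraMap_mono _ hQn
    rwa [map_one] at this
  let M : Type := (E K →L[ℂ] E K) × (∀ i : (Σ n : Fin K, J n), (E i.1 →L[ℂ] E i.1))
  let φ : Alg L →ₗ[ℂ] M := LinearMap.prod ((lev L).ev K tK).toAlgHom.toLinearMap
    (LinearMap.pi fun i => ((lev L).ev i.1 (p i.1 i.2)).toAlgHom.toLinearMap)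
  let ψ₁ : (E K →L[ℂ] E K) →ₗ[ℂ] Alg L :=
    rowmap (L K).b (fun k => ⟪(L K).e, (L K).b k⟫_ℂ • star r)
  let ψ₂ : ∀ i : (Σ n : Fin K, J n), (E i.1 →L[ℂ] E i.1) →ₗ[ℂ] Alg L := fun i =>
    rowmap (L i.1).b (row L i.1 (ξ i.1 i.2) (h1 i.1 i.2))
  let ψ : M →ₗ[ℂ] Alg L := ψ₁ ∘ₗ (LinearMap.fst ℂ _ _) +
    ∑ i : (Σ n : Fin K, J n), ψ₂ i ∘ₗ (LinearMap.proj i) ∘ₗ (LinearMap.snd ℂ _ _)
  have hψ : ∀ m : M, ψ m = ⟪(L K).e, m.1 (L K).e⟫_ℂ • (star r * r) +
      ∑ i : (Σ n : Fin K, J n), rowmap (L i.1).b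
      (row L i.1 (ξ i.1 i.2) (h1 i.1 i.2)) (m.2 i) := by
    intro m
    have e1 : ψ m = ψ₁ m.1 + (∑ i : (Σ n : Fin K, J n), ψ₂ i ∘ₗ (LinearMap.proj i) ∘ₗ
      (LinearMap.snd ℂ (E K →L[ℂ] E K) (∀ i : (Σ n : Fin K, J n), (E i.1 →L[ℂ] E i.1)))) m := rfl
    rw [e1, LinearMap.sum_apply]
    congr 1
    show rowmap (L K).b (fun k => ⟪(L K).e, (L K).b k⟫_ℂ • star r) m.1 = _
    rw [rowmap_vec, star_star]
  have hφ1 : φ 1 = 1 := by
    refine Prod.ext ?_ (funext fun i => ?_)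
    · exact map_one ((lev L).ev K tK)
    · exact map_one ((lev L).ev i.1 (p i.1 i.2))
  have hψ1 : ψ 1 = 1 := by
    rw [hψ]
    have e1 : ⟪(L K).e, (1 : M).1 (L K).e⟫_ℂ = 1 := (L K).e_inner
    rw [e1, one_smul, ← hr]
    exact sub_add_cancel _ _
  have hφcp : IsCP φ := by
    refine IsCP.of_hom _ (fun a b => ?_) (fun a => ?_)
    · refine Prod.ext ?_ (funext fun i => ?_)
      · exact map_mul ((lev L).ev K tK) a b
      · exact map_mul ((lev L).ev i.1 (p i.1 i.2)) a b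
    · refine Prod.ext ?_ (funext fun i => ?_)
      · exact map_star ((lev L).ev K tK) a
      · exact map_star ((lev L).ev i.1 (p i.1 i.2)) a
  have hψcp : IsCP ψ := by
    refine IsCP.add (IsCP.comp (rowmap_isCP _ _) (IsCP.of_hom _ (fun a b => rfl) (fun a => rfl)))
      (IsCP.sum _ _ fun i _ => IsCP.comp (rowmap_isCP _ _)
        (IsCP.of_hom _ (fun a b => rfl) (fun a => rfl)))
  refine ⟨M, inferInstance, inferInstance, φ, ψ, hφcp, hψcp, hφ1, hψ1, hφcp.norm_le hφ1,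
    hψcp.norm_le hψ1, fun a ha => ?_⟩
  have key : ‖ψ (φ (b a)) - b a‖ ≤ ε / 4 := by
    set y : Alg L := b a - c a • 1 with hy
    have hyev : ∀ n t, (lev L).ev n t y = x a n t := by
      intro n t
      rw [hy, map_sub, map_smul, map_one, hb]
      abel
    have e1 : ψ (φ (b a)) - b a = ψ (φ y) - y := by
      have : b a = y + c a • 1 := by rw [hy]; abel
      rw [this, map_add, map_add, map_smul, map_smul, hφ1, hψ1]
      abel
    have hKa : N a ≤ K := Finset.le_sup ha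
    have hφy1 : (φ y).1 = 0 := by
      show (lev L).ev K tK y = 0
      rw [hyev, hN a K hKa, Pi.zero_apply]
    have hφy2 : ∀ i, (φ y).2 i = x a i.1 (p i.1 i.2) := fun i => hyev _ _
    rw [e1, hψ, hφy1]
    simp_rw [hφy2]
    rw [zero_apply, inner_zero_right, zero_smul, zero_add]
    refine (lev L).norm_le (by positivity) fun n t => ?_
    rw [map_sub, hyev]
    rcases lt_or_ge n K with hn | hn
    · rw [ev_sum_lt L h1 _ hn]
      exact h3 n a ha t
    · rw [ev_sum_ge L h1 _ hn, hN a n (hKa.trans hn), Pi.zero_apply, sub_zero, norm_zero]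
      positivity
  have e2 : ψ (φ a) - a = ψ (φ (a - b a)) + (ψ (φ (b a)) - b a) - (a - b a) := by
    rw [map_sub, map_sub]
    abel
  rw [e2]
  have h4 : ‖ψ (φ (a - b a))‖ ≤ ‖a - b a‖ := (hψcp.norm_le hψ1 _).trans (hφcp.norm_le hφ1 _)
  have h5 := hab a
  calc _ ≤ ‖ψ (φ (a - b a))‖ + ‖ψ (φ (b a)) - b a‖ + ‖a - b a‖ :=
        (norm_sub_le _ _).trans (add_le_add (norm_add_le _ _) le_rfl)
    _ < ε := by linarith

end

end Pool.Agent.H70N
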