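import Mathlib
import Pool.Agent.Helper133.TP6

/-!
# The algebras of fields are separable
-/

open scoped ComplexOrder Topology InnerProductSpace ENNReal
open Filter TopologicalSpace
open InnerProductSpace (rankOne)

set_option linter.unusedSectionVars false

namespace Pool.Agent.H70N

open Pool.Agent.Helper133.TP

noncomputable section

variable {Y : ℕ → Type} [∀ n, TopologicalSpace (Y n)] [∀ n, CompactSpace (Y n)]
  {E : ℕ → Type} [∀ n, NormedAddCommGroup (E n)] [∀ n, InnerProductSpace ℂ (E n)]
  [∀ n, CompleteSpace (E n)] [∀ n, Nontrivial (E n)]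
  {κ : ℕ → Type} [∀ n, Fintype (κ n)]
  (L : ∀ n, LD n (Y n) (E n) (κ n))

/-- The ambient algebra. -/
abbrev DD (Y : ℕ → Type) (E : ℕ → Type) [∀ n, NormedAddCommGroup (E n)]
    [∀ n, InnerProductSpace ℂ (E n)] [∀ n, CompleteSpace (E n)] [∀ n, Nontrivial (E n)] :=
  Lev.D Y (fun n => E n →L[ℂ] E n)

/-- The generators as a continuous linear map of the coefficient. -/
def genMap (n : ℕ) (u v : Option (κ n)) : C(Y n, ℂ) →L[ℂ] DD Y E :=
  LinearMap.mkContinuous
    { toFun := fun f => (lev L).inj n ((L n).g f u v) ((L n).g_mem f u v)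
      map_add' := by
        intro f f'
        refine lp.ext (funext fun i => ?_)
        rcases i with ⟨m, t⟩
        show (Pi.single n ((L n).g (f + f') u v) : ∀ m, Y m → (E m →L[ℂ] E m)) m t =
          (Pi.single n ((L n).g f u v) : ∀ m, Y m → (E m →L[ℂ] E m)) m t +
          (Pi.single n ((L n).g f' u v) : ∀ m, Y m → (E m →L[ℂ] E m)) m t
        by_cases h : m = n
        · subst h
          simp only [Pi.single_eq_same]
          rw [(L m).g_apply, (L m).g_apply, (L m).g_apply, ContinuousMap.add_apply, add_smul]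
        · simp only [Pi.single_eq_of_ne h, Pi.zero_apply, add_zero]
      map_smul' := by
        intro c f
        refine lp.ext (funext fun i => ?_)
        rcases i with ⟨m, t⟩
        show (Pi.single n ((L n).g (c • f) u v) : ∀ m, Y m → (E m →L[ℂ] E m)) m t =
          c • (Pi.single n ((L n).g f u v) : ∀ m, Y m → (E m →L[ℂ] E m)) m t
        by_cases h : m = n
        · subst h
          simp only [Pi.single_eq_same]
          rw [(L m).g_apply, (L m).g_apply, ContinuousMap.smul_apply, smul_assoc]
        · simp only [Pi.single_eq_of_ne h, Pi.zero_apply, smul_zero] } 1 (by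
    intro f
    rw [one_mul]
    refine lp.norm_le_of_forall_le (norm_nonneg _) fun i => ?_
    rcases i with ⟨m, t⟩
    show ‖(Pi.single n ((L n).g f u v) : ∀ m, Y m → (E m →L[ℂ] E m)) m t‖ ≤ ‖f‖
    by_cases h : m = n
    · subst h
      simp only [Pi.single_eq_same]
      rw [(L m).g_apply, norm_smul, InnerProductSpace.norm_rankOne]
      calc _ ≤ ‖f‖ * (1 * 1) := by
            refine mul_le_mul (f.norm_coe_le_norm t) ?_ (by positivity) (norm_nonneg _)
            exact mul_le_mul ((L m).β_norm_le _ _) ((L m).β_norm_le _ _) (norm_nonneg _)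
              zero_le_one
        _ = ‖f‖ := by ring
    · simp only [Pi.single_eq_of_ne h, Pi.zero_apply, norm_zero]
      exact norm_nonneg _)

lemma genMap_apply (n : ℕ) (u v : Option (κ n)) (f : C(Y n, ℂ)) :
    genMap L n u v f = (lev L).inj n ((L n).g f u v) ((L n).g_mem f u v) := rfl

/-- The generators. -/
def gens : Set (DD Y E) :=
  {1} ∪ ⋃ i : (Σ n : ℕ, Option (κ n) × Option (κ n)), Set.range (genMap L i.1 i.2.1 i.2.2)

lemma isSeparable_gens [∀ n, SecondCountableTopology (Y n)] [∀ n, T2Space (Y n)] :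
    IsSeparable (gens L) := by
  have : ∀ n, Countable (κ n) := fun n => inferInstance
  refine IsSeparable.union ?_ (IsSeparable.iUnion fun i => ?_)
  · exact (Set.finite_singleton _).isSeparable
  · exact isSeparable_range (genMap L i.1 i.2.1 i.2.2).continuous

lemma inj_mem_span (n : ℕ) (x : Y n → (E n →L[ℂ] E n)) (hx : x ∈ (L n).S₀) :
    (lev L).inj n x hx ∈ Submodule.span ℂ (gens L) := by
  induction hx using Submodule.span_induction with
  | mem x hx =>
    obtain ⟨f, u, v, rfl⟩ := hx
    refine Submodule.subset_span (Or.inr (Set.mem_iUnion.2 ⟨⟨n, u, v⟩, f, ?_⟩))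
    rfl
  | zero =>
    have : (lev L).inj n 0 (zero_mem _) = 0 := by
      refine lp.ext (funext fun i => ?_)
      show (Pi.single n 0 : ∀ m, Y m → (E m →L[ℂ] E m)) i.1 i.2 = 0
      rw [Pi.single_zero]
      rfl
    show (lev L).inj n 0 (zero_mem _) ∈ _
    rw [this]
    exact zero_mem _
  | add x y hx hy h1 h2 =>
    have : (lev L).inj n (x + y) (add_mem hx hy) = (lev L).inj n x hx + (lev L).inj n y hy := by
      refine lp.ext (funext fun i => ?_)
      show (Pi.single n (x + y) : ∀ m, Y m → (E m →L[ℂ] E m)) i.1 i.2 =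
        (Pi.single n x : ∀ m, Y m → (E m →L[ℂ] E m)) i.1 i.2 +
        (Pi.single n y : ∀ m, Y m → (E m →L[ℂ] E m)) i.1 i.2
      rw [Pi.single_add]
      rfl
    show (lev L).inj n (x + y) (add_mem hx hy) ∈ _
    rw [this]
    exact add_mem h1 h2
  | smul c x hx h =>
    have : (lev L).inj n (c • x) (Submodule.smul_mem _ c hx) = c • (lev L).inj n x hx := by
      refine lp.ext (funext fun i => ?_)
      show (Pi.single n (c • x) : ∀ m, Y m → (E m →L[ℂ] E m)) i.1 i.2 =
        c • (Pi.single n x : ∀ m, Y m → (E m →L[ℂ] E m)) i.1 i.2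
      rw [Pi.single_smul]
      rfl
    show (lev L).inj n (c • x) (Submodule.smul_mem _ c hx) ∈ _
    rw [this]
    exact Submodule.smul_mem _ _ h

lemma A₀_le_span : ((lev L).A₀ : Set (DD Y E)) ⊆ Submodule.span ℂ (gens L) := by
  rintro b ⟨c, hc, N, hN⟩
  have e : b = c • 1 + ∑ n ∈ Finset.range N,
      (lev L).inj n (Lev.res (Y := Y) (B := fun n => E n →L[ℂ] E n) b n - c • 1) (hc n) := by
    refine lp.ext (funext fun i => ?_)
    rcases i with ⟨m, t⟩
    rw [lp.coeFn_add, lp.coeFn_sum, Pi.add_apply, Finset.sum_apply]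
    have h1 : ∀ n, ((lev L).inj n (Lev.res (Y := Y) (B := fun n => E n →L[ℂ] E n) b n - c • 1)
        (hc n) : DD Y E) ⟨m, t⟩ =
        (Pi.single n (Lev.res (Y := Y) (B := fun n => E n →L[ℂ] E n) b n - c • 1) :
          ∀ m, Y m → (E m →L[ℂ] E m)) m t := fun n => rfl
    simp_rw [h1]
    rcases lt_or_ge m N with hm | hm
    · rw [Finset.sum_eq_single_of_mem m (Finset.mem_range.2 hm)]
      · rw [Pi.single_eq_same]
        exact (add_sub_cancel (c • (1 : E m →L[ℂ] E m)) _).symm
      · intro n _ hn
        rw [Pi.single_eq_of_ne hn.symm, Pi.zero_apply]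
    · rw [Finset.sum_eq_zero, add_zero]
      · exact congrFun (hN m hm) t
      · intro n hn
        have : m ≠ n := by
          have := Finset.mem_range.1 hn
          omega
        rw [Pi.single_eq_of_ne this, Pi.zero_apply]
  rw [e]
  refine add_mem (Submodule.smul_mem _ _ (Submodule.subset_span (Or.inl rfl))) ?_
  exact Submodule.sum_mem _ fun n _ => inj_mem_span L n _ (hc n)

theorem separable_Alg [∀ n, SecondCountableTopology (Y n)] [∀ n, T2Space (Y n)] :
    SeparableSpace (Alg L) := by
  have h1 : IsSeparable (closure (Submodule.span ℂ (gens L) : Set (DD Y E))) :=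
    (isSeparable_gens L).span.closure
  have h2 : ((lev L).AA : Set (DD Y E)) ⊆ closure (Submodule.span ℂ (gens L) : Set (DD Y E)) :=
    closure_mono (A₀_le_span L)
  exact (h1.mono h2).separableSpace

end

end Pool.Agent.H70N
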