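import Pool.Agent.H70N.SlowCopy

/-!
# Sums of many sets: preparations
-/

set_option autoImplicit false

open scoped Pointwise

namespace Pool.Agent.H70N.Many

open Pool.Agent.E9helper80.PFR

/-- `A 0 + A 1 + ... + A n` -/
def sumUpTo {Γ : Type*} [AddCommGroup Γ] [DecidableEq Γ] (A : ℕ → Finset Γ) : ℕ → Finset Γ
  | 0 => A 0
  | n + 1 => sumUpTo A n + A (n + 1)

variable {Γ : Type*} [AddCommGroup Γ] [DecidableEq Γ]

lemma sumUpTo_nonempty {A : ℕ → Finset Γ} : ∀ n : ℕ, (∀ i ≤ n, (A i).Nonempty) →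
    (sumUpTo A n).Nonempty
  | 0, h => h 0 le_rfl
  | n + 1, h => (sumUpTo_nonempty n fun i hi => h i (by omega)).add (h (n + 1) le_rfl)

lemma sumUpTo_mono {A : ℕ → Finset Γ} {m n : ℕ} (hmn : m ≤ n) (h : ∀ i ≤ n, (A i).Nonempty) :
    (sumUpTo A m).card ≤ (sumUpTo A n).card := by
  induction n with
  | zero =>
    have : m = 0 := by omega
    rw [this]
  | succ n ih =>
    rcases Nat.lt_or_ge m (n + 1) with h1 | h1
    · exact (ih (by omega) fun i hi => h i (by omega)).trans
        (Finset.card_le_card_add_right (h (n + 1) le_rfl))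
    · have : m = n + 1 := by omega
      rw [this]

/-- a translate of each summand is contained in the sum -/
lemma translate {A : ℕ → Finset Γ} {i : ℕ} : ∀ n : ℕ, i ≤ n → (∀ i ≤ n, (A i).Nonempty) →
    ∃ x : Γ, ∀ y ∈ A i, x + y ∈ sumUpTo A n := by
  intro n
  induction n with
  | zero =>
    intro hi _
    have : i = 0 := by omega
    subst this
    exact ⟨0, fun y hy => by rw [zero_add]; exact hy⟩
  | succ n ih =>
    intro hi h
    rcases Nat.lt_or_ge i (n + 1) with h1 | h1
    · obtain ⟨x, hx⟩ := ih (by omega) fun i hi => h i (by omega)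
      obtain ⟨z, hz⟩ := h (n + 1) le_rfl
      refine ⟨x + z, fun y hy => ?_⟩
      have e : x + z + y = (x + y) + z := by abel
      rw [e]
      exact Finset.add_mem_add (hx y hy) hz
    · have : i = n + 1 := by omega
      subst this
      obtain ⟨x, hx⟩ := sumUpTo_nonempty (A := A) n fun i hi => h i (by omega)
      exact ⟨x, fun y hy => Finset.add_mem_add hx hy⟩

/-- two different summands -/
lemma pair_card {A : ℕ → Finset Γ} : ∀ n : ℕ, (∀ i ≤ n, (A i).Nonempty) → ∀ i ≤ n, ∀ j ≤ n,
    i < j → (A i + A j).card ≤ (sumUpTo A n).card := by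
  intro n
  induction n with
  | zero =>
    intro _ i hi j hj hij
    omega
  | succ n ih =>
    intro h i hi j hj hij
    rcases Nat.lt_or_ge j (n + 1) with h1 | h1
    · exact (ih (fun i hi => h i (by omega)) i (by omega) j (by omega) hij).trans
        (Finset.card_le_card_add_right (h (n + 1) le_rfl))
    · have : j = n + 1 := by omega
      subst this
      obtain ⟨x, hx⟩ := translate (A := A) (i := i) n (by omega) fun i hi => h i (by omega)
      rw [← Finset.card_image_of_injective (A i + A (n + 1)) (add_right_injective x)]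
      apply Finset.card_le_card
      intro z hz
      obtain ⟨w, hw, rfl⟩ := Finset.mem_image.1 hz
      obtain ⟨u, hu, u', hu', rfl⟩ := Finset.mem_add.1 hw
      rw [← add_assoc]
      exact Finset.add_mem_add (hx u hu) hu'

lemma nfold_eq_nsmul (B : Finset Γ) : ∀ n : ℕ, nfold B n = n • B
  | 0 => by
    rw [zero_nsmul, ← Finset.singleton_zero]
    rfl
  | n + 1 => by
    rw [succ_nsmul, ← nfold_eq_nsmul B n]
    rfl

/-- a step with small growth -/
lemma exists_step {A : ℕ → Finset Γ} {k N : ℕ} (hk : 1 ≤ k) (hN : 1 ≤ N)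
    (hA : ∀ i ≤ k, N ≤ (A i).card) {M : ℝ} (hM : ((sumUpTo A k).card : ℝ) ≤ M * N) :
    1 ≤ M ∧ ∃ j < k, ((sumUpTo A (j + 1)).card : ℝ) ≤
      M ^ (1 / (k : ℝ)) * (sumUpTo A j).card := by
  have hNr : (1 : ℝ) ≤ N := by exact_mod_cast hN
  have hne : ∀ i ≤ k, (A i).Nonempty := fun i hi => Finset.card_pos.1 (by have := hA i hi; omega)
  have h0 : (N : ℝ) ≤ (sumUpTo A 0).card := by exact_mod_cast hA 0 (Nat.zero_le _)
  have h0k : ((sumUpTo A 0).card : ℝ) ≤ (sumUpTo A k).card := by
    exact_mod_cast sumUpTo_mono (Nat.zero_le k) hne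
  have hM1 : 1 ≤ M := by
    have h1 : (N : ℝ) * 1 ≤ N * M := by linarith
    exact le_of_mul_le_mul_left h1 (by linarith)
  refine ⟨hM1, ?_⟩
  by_contra hcon
  push Not at hcon
  set ρ := M ^ (1 / (k : ℝ)) with hρ
  have hρ0 : 0 < ρ := Real.rpow_pos_of_pos (by linarith) _
  have key : ∀ j ≤ k, 1 ≤ j → ρ ^ j * (sumUpTo A 0).card < (sumUpTo A j).card := by
    intro j
    induction j with
    | zero => intro _ h; omega
    | succ j ih =>
      intro hj _
      have h1 := hcon j (by omega)
      rcases Nat.eq_zero_or_pos j with h2 | h2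
      · subst h2
        simpa using h1
      · have h3 := ih (by omega) h2
        calc ρ ^ (j + 1) * (sumUpTo A 0).card = ρ * (ρ ^ j * (sumUpTo A 0).card) := by ring
          _ < ρ * (sumUpTo A j).card := mul_lt_mul_of_pos_left h3 hρ0
          _ < _ := h1
  have h1 := key k le_rfl hk
  have h2 : ρ ^ k = M := by
    rw [hρ, ← Real.rpow_natCast, ← Real.rpow_mul (by linarith),
      one_div_mul_cancel (by positivity), Real.rpow_one]
  rw [h2] at h1
  have h3 : M * N ≤ M * (sumUpTo A 0).card := mul_le_mul_of_nonneg_left h0 (by linarith)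
  linarith

/-- the box of double size is covered by `3 ^ d` translates of the box -/
lemma double {d : ℕ} (L : Fin d → ℕ) : ∃ D : Finset (Fin d → ℤ), D.card ≤ 3 ^ d ∧
    ∀ c : Fin d → ℤ, (∀ i, |c i| ≤ 2 * L i) → ∃ e ∈ D, ∃ c' : Fin d → ℤ,
      (∀ i, |c' i| ≤ L i) ∧ c = e + c' := by
  classical
  refine ⟨Fintype.piFinset fun i => {-(L i : ℤ), 0, (L i : ℤ)}, ?_, fun c hc => ?_⟩
  · rw [Fintype.card_piFinset]
    calc ∏ i : Fin d, ({-(L i : ℤ), 0, (L i : ℤ)} : Finset ℤ).card ≤ ∏ _i : Fin d, 3 :=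
          Finset.prod_le_prod' fun i _ => Finset.card_le_three
      _ = 3 ^ d := by simp
  · have h : ∀ i, ∃ e ∈ ({-(L i : ℤ), 0, (L i : ℤ)} : Finset ℤ), |c i - e| ≤ L i := by
      intro i
      have h1 := abs_le.1 (hc i)
      rcases lt_or_ge (L i : ℤ) (c i) with h2 | h2
      · exact ⟨L i, by simp, by rw [abs_le]; constructor <;> linarith⟩
      · rcases lt_or_ge (c i) (-(L i : ℤ)) with h3 | h3
        · exact ⟨-(L i : ℤ), by simp, by rw [abs_le]; constructor <;> linarith⟩
        · exact ⟨0, by simp, by rw [abs_le]; constructor <;> linarith⟩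
    choose e he1 he2 using h
    refine ⟨e, ?_, fun i => c i - e i, he2, ?_⟩
    · rw [Fintype.mem_piFinset]
      exact he1
    · ext i
      simp

end Pool.Agent.H70N.Many
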