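import Pool.Agent.H70N.Many

/-!
# Sums of many sets: the theorem
-/

set_option autoImplicit false

open scoped Pointwise

namespace Pool.Agent.H70N.Many

open Pool.Agent.E9helper80.PFR

variable {Γ : Type*} [AddCommGroup Γ] [DecidableEq Γ]

/-- the summand of the step with small growth grows slowly -/
lemma slow_summand {A : ℕ → Finset Γ} {k N : ℕ} (hk : 1 ≤ k) (hN : 1 ≤ N)
    (hA : ∀ i ≤ k, N ≤ (A i).card) {M : ℝ} (hM : ((sumUpTo A k).card : ℝ) ≤ M * N) :
    1 ≤ M ∧ ∃ j ≤ k, ((nfold (A j) k).card : ℝ) ≤ M ^ 2 * (A j).card := by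
  obtain ⟨hM1, j, hj, hstep⟩ := exists_step hk hN hA hM
  have hne : ∀ i ≤ k, (A i).Nonempty := fun i hi => Finset.card_pos.1 (by have := hA i hi; omega)
  have hNr : (1 : ℝ) ≤ N := by exact_mod_cast hN
  refine ⟨hM1, j + 1, hj, ?_⟩
  set S := sumUpTo A j with hS
  have hSne : S.Nonempty := sumUpTo_nonempty j fun i hi => hne i (by omega)
  have hS0 : (0 : ℝ) < S.card := by exact_mod_cast hSne.card_pos
  have h1 := Finset.pluennecke_ruzsa_inequality_nsmul_add hSne (A (j + 1)) k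
  have h2 : ((k • A (j + 1)).card : ℝ) ≤ (((S + A (j + 1)).card : ℝ) / S.card) ^ k * S.card := by
    have h2 := (NNRat.cast_le (K := ℝ)).2 h1
    push_cast at h2
    exact h2
  have h3 : ((S + A (j + 1)).card : ℝ) / S.card ≤ M ^ (1 / (k : ℝ)) := by
    rw [div_le_iff₀ hS0]
    exact hstep
  have h4 : (((S + A (j + 1)).card : ℝ) / S.card) ^ k ≤ M := by
    calc (((S + A (j + 1)).card : ℝ) / S.card) ^ k ≤ (M ^ (1 / (k : ℝ))) ^ k :=
          pow_le_pow_left₀ (by positivity) h3 k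
      _ = M := by
          rw [← Real.rpow_natCast, ← Real.rpow_mul (by linarith),
            one_div_mul_cancel (by positivity), Real.rpow_one]
  have h5 : (S.card : ℝ) ≤ (sumUpTo A k).card := by
    exact_mod_cast sumUpTo_mono hj.le hne
  have h6 : (N : ℝ) ≤ (A (j + 1)).card := by exact_mod_cast hA (j + 1) hj
  rw [nfold_eq_nsmul]
  calc ((k • A (j + 1)).card : ℝ) ≤ (((S + A (j + 1)).card : ℝ) / S.card) ^ k * S.card := h2
    _ ≤ M * (M * N) := mul_le_mul h4 (h5.trans hM) hS0.le (by linarith)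
    _ = M ^ 2 * N := by ring
    _ ≤ M ^ 2 * (A (j + 1)).card := mul_le_mul_of_nonneg_left h6 (by positivity)

/-- sums with the slowly growing summand -/
lemma add_card {A : ℕ → Finset Γ} {k N : ℕ} (hk : 2 ≤ k) (hN : 1 ≤ N)
    (hA : ∀ i ≤ k, N ≤ (A i).card) {M : ℝ} (hM1 : 1 ≤ M)
    (hM : ((sumUpTo A k).card : ℝ) ≤ M * N) {j : ℕ} (hj : j ≤ k)
    (hB : ((nfold (A j) k).card : ℝ) ≤ M ^ 2 * (A j).card) (i : ℕ) (hi : i ≤ k) :
    ((A i + A j).card : ℝ) ≤ M ^ 2 * (A j).card := by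
  have hne : ∀ i ≤ k, (A i).Nonempty := fun i hi => Finset.card_pos.1 (by have := hA i hi; omega)
  have h6 : (N : ℝ) ≤ (A j).card := by exact_mod_cast hA j hj
  have h7 : M * N ≤ M ^ 2 * (A j).card := by
    calc M * N ≤ M ^ 2 * N := by
          apply mul_le_mul_of_nonneg_right _ (Nat.cast_nonneg _)
          nlinarith
      _ ≤ _ := mul_le_mul_of_nonneg_left h6 (by positivity)
  rcases lt_trichotomy i j with h | h | h
  · refine le_trans ?_ (hM.trans h7)
    exact_mod_cast pair_card k hne i hi j hj h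
  · subst h
    refine le_trans ?_ hB
    have h8 : A i + A i = nfold (A i) 2 := by
      rw [nfold_eq_nsmul, two_nsmul]
    rw [h8]
    exact_mod_cast nfold_card_mono (hne i hi) hk
  · refine le_trans ?_ (hM.trans h7)
    rw [add_comm]
    exact_mod_cast pair_card k hne j hj i hi h

end Pool.Agent.H70N.Many
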