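import Pool.Agent.H70N.Many2

/-!
# Sums of many sets: the main theorem
-/

set_option autoImplicit false

open scoped Pointwise

namespace Pool.Agent.H70N.Many

open Pool.Agent.E9helper80.PFR

lemma five_pow {M : ℝ} (hM1 : 1 ≤ M) : M ≤ 2 ^ ⌈Real.logb 2 M⌉₊ ∧
    (5 : ℝ) ^ ⌈Real.logb 2 M⌉₊ ≤ 5 * M ^ (3 : ℝ) := by
  set s : ℕ := ⌈Real.logb 2 M⌉₊ with hs
  constructor
  · have h1 : Real.logb 2 M ≤ s := Nat.le_ceil _
    rw [Real.logb_le_iff_le_rpow (by norm_num) (by linarith)] at h1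
    rwa [Real.rpow_natCast] at h1
  · have h2 : (s : ℝ) ≤ Real.logb 2 M + 1 := (Nat.ceil_lt_add_one
      (Real.logb_nonneg (by norm_num) hM1)).le
    calc (5 : ℝ) ^ s = (5 : ℝ) ^ (s : ℝ) := (Real.rpow_natCast _ _).symm
      _ ≤ (5 : ℝ) ^ (Real.logb 2 M + 1) := Real.rpow_le_rpow_of_exponent_le (by norm_num) h2
      _ = 5 * (5 : ℝ) ^ (Real.logb 2 M) := by
          rw [Real.rpow_add (by norm_num), Real.rpow_one]; ring
      _ ≤ 5 * ((2 : ℝ) ^ (3 : ℝ)) ^ (Real.logb 2 M) := by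
          refine mul_le_mul_of_nonneg_left ?_ (by norm_num)
          exact Real.rpow_le_rpow (by norm_num) (by norm_num) (Real.logb_nonneg (by norm_num) hM1)
      _ = 5 * M ^ (3 : ℝ) := by
          rw [← Real.rpow_mul (by norm_num), mul_comm (3 : ℝ), Real.rpow_mul (by norm_num),
            Real.rpow_logb (by norm_num) (by norm_num) (by linarith)]

/-- the numerical estimates -/
lemma numbers {M : ℝ} (hM1 : 1 ≤ M) {k : ℕ} (hk : 2 ≤ k) {d t : ℝ}
    (hd : d ≤ 600 * (1 + Real.log (2 * M ^ 2) / Real.log k)) (ht0 : 0 ≤ t)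
    (ht : t ≤ (2 * M ^ 2) ^ (100000 * (1 + Real.log (1 + Real.log (2 * M ^ 2)) / Real.log k))) :
    d ≤ 1200 * (1 + Real.log (2 * M) / Real.log k) ∧
    M ^ 2 * (t * t) * (3 : ℝ) ^ d * (5 * M ^ (3 : ℝ)) ≤
      (2 * M) ^ (1000000 * (1 + Real.log (1 + Real.log (2 * M)) / Real.log k)) := by
  have hM0 : 0 < M := by linarith
  have hlog2 : 0.69 < Real.log 2 := by have := Real.log_two_gt_d9; linarith
  set lam := Real.log (2 * M) with hlam
  set ℓ := Real.log k with hℓdef
  have hℓ2 : Real.log 2 ≤ ℓ := Real.log_le_log (by norm_num) (by exact_mod_cast hk)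
  have hℓ : 0 < ℓ := by linarith
  have hlamM : lam = Real.log 2 + Real.log M := Real.log_mul (by norm_num) hM0.ne'
  have hlogM : 0 ≤ Real.log M := Real.log_nonneg hM1
  have hlam0 : 0.69 < lam := by linarith
  have h2 : Real.log (2 * M ^ 2) = Real.log 2 + 2 * Real.log M := by
    rw [Real.log_mul (by norm_num) (by positivity), Real.log_pow]
    push_cast
    ring
  have h3 : Real.log (2 * M ^ 2) ≤ 2 * lam := by rw [h2]; linarith
  have h30 : 0 < Real.log (2 * M ^ 2) := by rw [h2]; linarith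
  set a := Real.log (1 + lam) with ha
  have ha0 : 0 ≤ a := Real.log_nonneg (by linarith)
  have h4 : Real.log (1 + Real.log (2 * M ^ 2)) ≤ Real.log 2 + a := by
    rw [ha, ← Real.log_mul (by norm_num) (by linarith)]
    exact Real.log_le_log (by linarith) (by linarith)
  have h5 : Real.log (1 + Real.log (2 * M ^ 2)) / ℓ ≤ 1 + a / ℓ := by
    rw [div_le_iff₀ hℓ, add_mul, one_mul, div_mul_cancel₀ _ hℓ.ne']
    linarith
  have h50 : 0 ≤ Real.log (1 + Real.log (2 * M ^ 2)) / ℓ :=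
    div_nonneg (Real.log_nonneg (by linarith)) hℓ.le
  have haℓ : 0 ≤ a / ℓ := by positivity
  have h6 : Real.log (2 * M ^ 2) / ℓ ≤ 2 * (lam / ℓ) := by
    rw [← mul_div_assoc]
    exact div_le_div_of_nonneg_right h3 hℓ.le
  have hd' : d ≤ 1200 * (1 + lam / ℓ) := by linarith
  refine ⟨hd', ?_⟩
  have h7 : t ≤ Real.exp (400000 * (lam * (1 + a / ℓ))) := by
    refine ht.trans ?_
    rw [Real.rpow_def_of_pos (by positivity), Real.exp_le_exp]
    calc Real.log (2 * M ^ 2) *
          (100000 * (1 + Real.log (1 + Real.log (2 * M ^ 2)) / ℓ))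
        ≤ (2 * lam) * (100000 * (2 + a / ℓ)) :=
          mul_le_mul h3 (by linarith) (by positivity) (by linarith)
      _ ≤ 400000 * (lam * (1 + a / ℓ)) := by
          have : 0 ≤ lam * (a / ℓ) := by positivity
          nlinarith
  have h8 : (3 : ℝ) ^ d ≤ Real.exp (7000 * lam) := by
    rw [Real.rpow_def_of_pos (by norm_num), Real.exp_le_exp]
    have h9 : Real.log 3 ≤ 2 := by
      have := Real.log_le_sub_one_of_pos (show (0 : ℝ) < 3 by norm_num)
      linarith
    have h90 : 0 ≤ Real.log 3 := Real.log_nonneg (by norm_num)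
    have h10 : lam / ℓ ≤ 1.45 * lam := by
      rw [div_le_iff₀ hℓ]
      nlinarith
    have h100 : 0 ≤ lam / ℓ := by positivity
    calc Real.log 3 * d ≤ Real.log 3 * (1200 * (1 + lam / ℓ)) :=
          mul_le_mul_of_nonneg_left hd' h90
      _ ≤ 2 * (1200 * (1 + lam / ℓ)) := mul_le_mul_of_nonneg_right h9 (by positivity)
      _ ≤ 7000 * lam := by linarith
  have h11 : M ^ 2 = Real.exp (2 * Real.log M) := by
    rw [mul_comm, Real.exp_mul, Real.exp_log hM0]
    norm_num
  have h12 : 5 * M ^ (3 : ℝ) = Real.exp (Real.log 5 + 3 * Real.log M) := by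
    rw [Real.exp_add, Real.exp_log (by norm_num), Real.rpow_def_of_pos hM0, mul_comm (3 : ℝ)]
  have h13 : (2 * M) ^ (1000000 * (1 + a / ℓ)) = Real.exp (lam * (1000000 * (1 + a / ℓ))) := by
    rw [Real.rpow_def_of_pos (by linarith)]
  have h14 : Real.log 5 ≤ 3 * lam := by
    have : Real.log 5 ≤ Real.log (2 ^ 3) := Real.log_le_log (by norm_num) (by norm_num)
    rw [Real.log_pow] at this
    push_cast at this
    linarith
  rw [h13]
  calc M ^ 2 * (t * t) * (3 : ℝ) ^ d * (5 * M ^ (3 : ℝ))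
      ≤ Real.exp (2 * Real.log M) * (Real.exp (400000 * (lam * (1 + a / ℓ))) *
          Real.exp (400000 * (lam * (1 + a / ℓ)))) * Real.exp (7000 * lam) *
          Real.exp (Real.log 5 + 3 * Real.log M) := by
        rw [← h11, ← h12]
        have hp : 0 < Real.exp (400000 * (lam * (1 + a / ℓ))) := Real.exp_pos _
        have h3d : 0 < (3 : ℝ) ^ d := Real.rpow_pos_of_pos (by norm_num) _
        have q1 : t * t ≤ Real.exp (400000 * (lam * (1 + a / ℓ))) *
            Real.exp (400000 * (lam * (1 + a / ℓ))) := mul_le_mul h7 h7 ht0 hp.le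
        have q2 : M ^ 2 * (t * t) ≤ M ^ 2 * (Real.exp (400000 * (lam * (1 + a / ℓ))) *
            Real.exp (400000 * (lam * (1 + a / ℓ)))) :=
          mul_le_mul_of_nonneg_left q1 (by positivity)
        have q3 := mul_le_mul q2 h8 h3d.le (by positivity)
        exact mul_le_mul_of_nonneg_right q3 (by positivity)
    _ = Real.exp (2 * Real.log M + (400000 * (lam * (1 + a / ℓ)) +
          400000 * (lam * (1 + a / ℓ))) + 7000 * lam + (Real.log 5 + 3 * Real.log M)) := by
        simp only [← Real.exp_add]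
    _ ≤ Real.exp (lam * (1000000 * (1 + a / ℓ))) := by
        rw [Real.exp_le_exp]
        have e1 : lam * (1000000 * (1 + a / ℓ)) = 1000000 * (lam * (1 + a / ℓ)) := by ring
        have e2 : lam ≤ lam * (1 + a / ℓ) := by
          have : 0 ≤ lam * (a / ℓ) := by positivity
          linarith
        have e3 : Real.log M ≤ lam := by linarith
        rw [e1]
        linarith

theorem main {Γ : Type*} [AddCommGroup Γ] [DecidableEq Γ]
    (htf : ∀ (n : ℕ) (x : Γ), n ≠ 0 → n • x = 0 → x = 0) (A : ℕ → Finset Γ) (k N : ℕ)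
    (hk : 2 ≤ k) (hN : 1 ≤ N) (hA : ∀ i ≤ k, N ≤ (A i).card) (M : ℝ)
    (hM : ((sumUpTo A k).card : ℝ) ≤ M * N) :
    1 ≤ M ∧ ∃ (d : ℕ) (v : Fin d → Γ) (L : Fin d → ℕ),
      (d : ℝ) ≤ 1200 * (1 + Real.log (2 * M) / Real.log k) ∧
      (∀ a b : Fin d → ℤ, (∀ i, |a i| ≤ L i) → (∀ i, |b i| ≤ L i) →
        ∑ i, a i • v i = ∑ i, b i • v i → a = b) ∧
      ∏ i, (2 * L i + 1) ≤ N ∧
      ∀ i ≤ k, ∃ T : Finset Γ,
        (T.card : ℝ) ≤
          (2 * M) ^ (1000000 * (1 + Real.log (1 + Real.log (2 * M)) / Real.log k)) ∧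
        ∀ a ∈ A i, ∃ t ∈ T, ∃ c : Fin d → ℤ, (∀ i, |c i| ≤ L i) ∧ a = t + ∑ i, c i • v i := by
  classical
  obtain ⟨hM1, j, hj, hB⟩ := slow_summand (by omega) hN hA hM
  refine ⟨hM1, ?_⟩
  have hM0 : 0 < M := by linarith
  have hne : ∀ i ≤ k, (A i).Nonempty := fun i hi => Finset.card_pos.1 (by have := hA i hi; omega)
  have hN0 : (0 : ℝ) < N := by exact_mod_cast hN
  obtain ⟨d, v, L0, T0, hd, hprop, hvol, hT0, -, hcov⟩ := slow htf (A j) (hne j hj) k hk (M ^ 2) hB
  obtain ⟨hs2, h5⟩ := five_pow hM1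
  set s : ℕ := ⌈Real.logb 2 M⌉₊ with hs
  have hBM : ((A j).card : ℝ) ≤ M * N := by
    refine le_trans ?_ hM
    obtain ⟨x, hx⟩ := translate (A := A) (i := j) k hj hne
    rw [← Finset.card_image_of_injective (A j) (add_right_injective x)]
    have : ((A j).image (fun y => x + y)).card ≤ (sumUpTo A k).card := by
      apply Finset.card_le_card
      intro z hz
      obtain ⟨w, hw, rfl⟩ := Finset.mem_image.1 hz
      exact hx w hw
    exact_mod_cast this
  have hvol2 : ∏ i, (2 * L0 i + 1) ≤ 2 ^ s * N := by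
    have : ((∏ i, (2 * L0 i + 1) : ℕ) : ℝ) ≤ ((2 ^ s * N : ℕ) : ℝ) := by
      calc ((∏ i, (2 * L0 i + 1) : ℕ) : ℝ) ≤ (A j).card := by exact_mod_cast hvol
        _ ≤ M * N := hBM
        _ ≤ 2 ^ s * N := mul_le_mul_of_nonneg_right hs2 hN0.le
        _ = _ := by push_cast; ring
    exact_mod_cast this
  obtain ⟨L, D, hL, hLN, hD, hcov'⟩ := shrink hN s L0 hvol2
  obtain ⟨D2, hD2, hcov2⟩ := double L0
  obtain ⟨hd', hnum⟩ := numbers hM1 hk hd (Nat.cast_nonneg T0.card) hT0
  refine ⟨d, v, L, hd', fun a b ha hb => hprop a b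
    (fun i => (ha i).trans (by exact_mod_cast hL i))
    (fun i => (hb i).trans (by exact_mod_cast hL i)), hLN, fun i hi => ?_⟩
  obtain ⟨F, -, hF, hAF⟩ := Finset.ruzsa_covering_add (A := A i) (hne j hj)
    (add_card hk hN hA hM1 hM hj hB i hi)
  set φ : (Fin d → ℤ) → Γ := fun c => ∑ i, c i • v i with hφ
  have hφadd : ∀ c c', φ (c + c') = φ c + φ c' := by
    intro c c'
    simp only [hφ, Pi.add_apply, add_smul, Finset.sum_add_distrib]
  refine ⟨F + (T0 - T0) + D2.image φ + D.image φ, ?_, fun y hy => ?_⟩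
  · refine le_trans ?_ hnum
    have h1 : (F + (T0 - T0) + D2.image φ + D.image φ).card ≤
        F.card * (T0.card * T0.card) * 3 ^ d * 5 ^ s := by
      refine Finset.card_add_le.trans (Nat.mul_le_mul ?_ (Finset.card_image_le.trans hD))
      refine Finset.card_add_le.trans (Nat.mul_le_mul ?_ (Finset.card_image_le.trans hD2))
      exact Finset.card_add_le.trans (Nat.mul_le_mul_left _ Finset.card_sub_le)
    calc (((F + (T0 - T0) + D2.image φ + D.image φ).card : ℕ) : ℝ)
        ≤ ((F.card * (T0.card * T0.card) * 3 ^ d * 5 ^ s : ℕ) : ℝ) := by exact_mod_cast h1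
      _ = (F.card : ℝ) * ((T0.card : ℝ) * T0.card) * (3 : ℝ) ^ (d : ℝ) * 5 ^ s := by
          rw [Real.rpow_natCast]
          push_cast
          ring
      _ ≤ _ := by gcongr
  · obtain ⟨f, hf, z, hz, rfl⟩ := Finset.mem_add.1 (hAF hy)
    obtain ⟨b, hb, b', hb', rfl⟩ := Finset.mem_sub.1 hz
    obtain ⟨t, ht, c, hc, e⟩ := hcov b hb
    obtain ⟨t', ht', c', hc', e'⟩ := hcov b' hb'
    obtain ⟨g, hg, u, hu, eg⟩ := hcov2 (c - c') (fun i => by
      have h1 := abs_le.1 (hc i)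
      have h2 := abs_le.1 (hc' i)
      rw [Pi.sub_apply, abs_le]
      constructor <;> linarith)
    obtain ⟨g', hg', u', hu', eg'⟩ := hcov' u hu
    refine ⟨f + (t - t') + φ g + φ g', ?_, u', hu', ?_⟩
    · exact Finset.add_mem_add (Finset.add_mem_add (Finset.add_mem_add hf
        (Finset.sub_mem_sub ht ht')) (Finset.mem_image_of_mem _ hg)) (Finset.mem_image_of_mem _ hg')
    · have e1 : φ c = φ c' + (φ g + (φ g' + φ u')) := by
        rw [← hφadd, ← eg', ← hφadd, ← eg, ← hφadd]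
        congr 1
        abel
      change b = t + φ c at e
      change b' = t' + φ c' at e'
      change f + (b - b') = f + (t - t') + φ g + φ g' + φ u'
      rw [e, e', e1]
      abel

end Pool.Agent.H70N.Many
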