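import Pool.Agent.TH709.NC.Lines
import Pool.Agent.H491R3.PE.Crit

/-!
# Near-coincidences with bounded exponent: near misses on few lines

The pairs with `x ^ 2 < a ^ n`, `n ≤ T`, which are not exact coincidences: at most `ε T + K log x`.
-/

set_option autoImplicit false

namespace Pool.Agent.H70N

open Real Filter Set Asymptotics
open Pool.Agent.H491R3.PE Pool.Agent.TH709.NC

variable {a b : ℝ}

/-- the pairs `(n, m)` with `n ≤ T` and `|a ^ n - b ^ m| ≤ x` -/
def UU (a b x T : ℝ) : Set (ℕ × ℕ) := {p | (p.1 : ℝ) ≤ T ∧ |a ^ p.1 - b ^ p.2| ≤ x}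

/-- those with `x ^ 2 < a ^ n` which are not exact coincidences -/
def UN (a b x T : ℝ) : Set (ℕ × ℕ) :=
  {p | (p.1 : ℝ) ≤ T ∧ |a ^ p.1 - b ^ p.2| ≤ x ∧ x ^ 2 < a ^ p.1 ∧ a ^ p.1 ≠ b ^ p.2}

/-- the exact coincidences with `x ^ 2 < a ^ n` -/
def UE (a b x T : ℝ) : Set (ℕ × ℕ) := {p | (p.1 : ℝ) ≤ T ∧ x ^ 2 < a ^ p.1 ∧ a ^ p.1 = b ^ p.2}

/-- the constant of a single line -/
noncomputable def Kf (a b : ℝ) (l : ℕ × ℕ) : ℝ :=
  1 / log 2 + 1 / log a + |log (abs (a ^ l.1 - b ^ l.2))| / (log a * log 2)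

lemma Kf_nonneg (ha : 1 < a) (l : ℕ × ℕ) : 0 ≤ Kf a b l := by
  have h1 : 0 < log a := log_pos ha
  have h2 : 0 < log 2 := log_pos (by norm_num)
  unfold Kf
  positivity

lemma single (ha : 1 < a) (hb : 1 < b) {l : ℕ × ℕ} (hl : 1 ≤ l.1) (hne : a ^ l.1 ≠ b ^ l.2)
    {x : ℝ} (hx : 2 ≤ x) {g : ℕ} (hg : 1 ≤ g) (h : |a ^ (g * l.1) - b ^ (g * l.2)| ≤ x) :
    (g : ℝ) ≤ Kf a b l * log x := by
  have hA : 0 < log a := log_pos ha
  have hl2 : 0 < log 2 := log_pos (by norm_num)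
  have hlx : log 2 ≤ log x := Real.log_le_log (by norm_num) hx
  have hlx0 : 0 < log x := by linarith
  have hx0 : 0 < x := by linarith
  set δ := |a ^ l.1 - b ^ l.2| with hδ
  have hδ0 : 0 < δ := abs_pos.2 (sub_ne_zero.2 hne)
  have h1 := (gcd_ineq ha hb l.1 l.2 g hg).trans h
  have h2 : a ^ (g - 1) ≤ (a ^ l.1) ^ (g - 1) := by
    refine pow_le_pow_left₀ (by linarith) ?_ _
    calc a = a ^ 1 := (pow_one a).symm
      _ ≤ a ^ l.1 := pow_le_pow_right₀ ha.le hl
  have h3 : δ * a ^ (g - 1) ≤ x := (mul_le_mul_of_nonneg_left h2 hδ0.le).trans h1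
  have h4 : log δ + (g - 1 : ℕ) * log a ≤ log x := by
    rw [← Real.log_pow, ← Real.log_mul hδ0.ne' (by positivity)]
    exact Real.log_le_log (by positivity) h3
  have h5 : ((g - 1 : ℕ) : ℝ) = (g : ℝ) - 1 := by
    rw [Nat.cast_sub hg, Nat.cast_one]
  rw [h5] at h4
  have h6 : -log δ ≤ |log δ| := neg_le_abs _
  have h7 : ((g : ℝ) - 1) * log a ≤ log x + |log δ| := by linarith
  have h8 : (g : ℝ) ≤ 1 + (log x + |log δ|) / log a := by
    have : (g : ℝ) - 1 ≤ (log x + |log δ|) / log a := by rwa [le_div_iff₀ hA]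
    linarith
  refine h8.trans ?_
  have e1 : (1 : ℝ) ≤ 1 / log 2 * log x := by
    rw [div_mul_eq_mul_div, le_div_iff₀ hl2]; linarith
  have e2 : |log δ| / log a ≤ |log δ| / (log a * log 2) * log x := by
    rw [div_mul_eq_mul_div, div_le_div_iff₀ hA (by positivity)]
    have : 0 ≤ |log δ| * log a := by positivity
    nlinarith
  have e3 : Kf a b l * log x = 1 / log 2 * log x + log x / log a +
      |log δ| / (log a * log 2) * log x := by
    unfold Kf
    rw [← hδ]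
    ring
  rw [e3, add_div]
  linarith

/-- the near misses of large exponent which are not exact -/
theorem UN_count (ha : 1 < a) (hb : 1 < b) {ε : ℝ} (hε : 0 < ε) : ∃ K : ℝ, 0 ≤ K ∧
    ∀ x : ℝ, 2 ≤ x → ∀ T : ℝ, 0 ≤ T → (UN a b x T).Finite ∧
      ((UN a b x T).ncard : ℝ) ≤ ε * T + K * log x := by
  classical
  obtain ⟨n₀, lam, hn₀, hlam, hlam1, hln, g1, g2, g3⟩ := gaps ha hb
  obtain ⟨N', hN'⟩ := exists_nat_ge (2 / ε)
  set N : ℕ := max n₀ N' with hN
  have hN1 : 1 ≤ N := hn₀.trans (le_max_left _ _)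
  have hN0 : (0 : ℝ) < N := by exact_mod_cast hN1
  have hNε : 2 / (N : ℝ) ≤ ε := by
    have h1 : (N' : ℝ) ≤ N := by exact_mod_cast le_max_right _ _
    rw [div_le_iff₀ hN0]
    rw [div_le_iff₀ hε] at hN'
    nlinarith
  have hS := LL_fin ha hb N
  refine ⟨∑ l ∈ hS.toFinset, Kf a b l, Finset.sum_nonneg fun l _ => Kf_nonneg ha l,
    fun x hx T hT => ?_⟩
  have hx0 : 0 < x := by linarith
  have hlx0 : 0 < log x := log_pos (by linarith)
  set M : ℕ := ⌊T⌋₊ with hM
  have hMle : (M : ℝ) ≤ T := Nat.floor_le hT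
  have hF := LL_fin ha hb M
  set G1 : Finset (Σ _ : ℕ × ℕ, ℕ) := hS.toFinset.sigma fun l =>
    Finset.Icc 1 ⌊Kf a b l * log x⌋₊ with hG1
  set G2 : Finset (Σ _ : ℕ × ℕ, ℕ) := (hF.toFinset.filter fun l => N < l.1).sigma fun l =>
    Finset.Icc 1 (M / l.1) with hG2
  have hsub : UN a b x T ⊆
      ((G1 ∪ G2).image (fun y => (y.2 * y.1.1, y.2 * y.1.2)) : Finset (ℕ × ℕ)) := by
    rintro p ⟨hpT, hp1, hp2, hp3⟩
    obtain ⟨l, hl, g, rfl⟩ := on_of_large ha hb hx hp1 hp2
    have hl1 : 1 ≤ l.1 := hl.1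
    have hg : 1 ≤ g := by
      rcases Nat.eq_zero_or_pos g with h | h
      · exfalso
        apply hp3
        simp [h]
      · exact h
    have hne : a ^ l.1 ≠ b ^ l.2 := by
      intro h
      apply hp3
      change a ^ (g * l.1) = b ^ (g * l.2)
      rw [mul_comm g, mul_comm g, pow_mul, pow_mul, h]
    have hgM : g * l.1 ≤ M := by
      rw [hM, Nat.le_floor_iff hT]
      exact hpT
    rw [Finset.mem_coe, Finset.mem_image]
    refine ⟨⟨l, g⟩, ?_, rfl⟩
    rw [Finset.mem_union]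
    rcases le_or_gt l.1 N with hlN | hlN
    · left
      rw [hG1, Finset.mem_sigma, Set.Finite.mem_toFinset, Finset.mem_Icc]
      refine ⟨⟨hl, hlN⟩, hg, ?_⟩
      rw [Nat.le_floor_iff (mul_nonneg (Kf_nonneg ha l) hlx0.le)]
      exact single ha hb hl1 hne hx hg hp1
    · right
      rw [hG2, Finset.mem_sigma, Finset.mem_filter, Set.Finite.mem_toFinset, Finset.mem_Icc]
      refine ⟨⟨⟨hl, (Nat.le_mul_of_pos_left _ hg).trans hgM⟩, hlN⟩, hg, ?_⟩
      exact (Nat.le_div_iff_mul_le (Nat.lt_of_lt_of_le Nat.zero_lt_one hl1)).2 hgM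
  refine ⟨(Finset.finite_toSet _).subset hsub, ?_⟩
  have h1 : (UN a b x T).ncard ≤ G1.card + G2.card := by
    refine (Set.ncard_le_ncard hsub (Finset.finite_toSet _)).trans ?_
    rw [Set.ncard_coe_finset]
    exact Finset.card_image_le.trans (Finset.card_union_le _ _)
  have h2 : (G1.card : ℝ) ≤ (∑ l ∈ hS.toFinset, Kf a b l) * log x := by
    rw [hG1, Finset.card_sigma, Finset.sum_mul]
    push_cast
    refine Finset.sum_le_sum fun l _ => ?_
    rw [Nat.card_Icc, Nat.add_sub_cancel]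
    exact Nat.floor_le (mul_nonneg (Kf_nonneg ha l) hlx0.le)
  have h3 : (G2.card : ℝ) ≤ ε * T := by
    rw [hG2, Finset.card_sigma]
    push_cast
    calc ∑ l ∈ hF.toFinset.filter (fun l => N < l.1), ((Finset.Icc 1 (M / l.1)).card : ℝ)
        ≤ ∑ l ∈ hF.toFinset.filter (fun l => N < l.1), (M : ℝ) * (1 / l.1) := by
          refine Finset.sum_le_sum fun l _ => ?_
          rw [Nat.card_Icc, Nat.add_sub_cancel, mul_one_div]
          exact Nat.cast_div_le
      _ = M * ∑ l ∈ hF.toFinset.filter (fun l => N < l.1), (1 : ℝ) / l.1 := by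
          rw [Finset.mul_sum]
      _ = M * ∑ p ∈ (hF.toFinset.filter (fun l => N < l.1)).image Prod.fst, (1 : ℝ) / p := by
          rw [Finset.sum_image]
          intro p hp q hq hpq
          rw [Finset.mem_coe, Finset.mem_filter, Set.Finite.mem_toFinset] at hp hq
          exact g1 p hp.1.1 q hq.1.1 ((le_max_left _ _).trans hp.2.le) hpq
      _ ≤ M * (2 / N) := by
          apply mul_le_mul_of_nonneg_left _ (Nat.cast_nonneg _)
          refine sum_inv _ _ N rfl hN1 ?_ ?_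
          · intro p hp
            obtain ⟨l, hl, rfl⟩ := Finset.mem_image.1 hp
            exact (Finset.mem_filter.1 hl).2.le
          · intro p hp q hq hpq
            obtain ⟨l, hl, rfl⟩ := Finset.mem_image.1 hp
            obtain ⟨k, hk, rfl⟩ := Finset.mem_image.1 hq
            rw [Finset.mem_filter, Set.Finite.mem_toFinset] at hl hk
            exact g2 l hl.1.1 k hk.1.1 ((le_max_left _ _).trans hl.2.le) hpq
      _ ≤ T * ε := mul_le_mul hMle hNε (by positivity) hT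
      _ = ε * T := mul_comm _ _
  have h4 : ((UN a b x T).ncard : ℝ) ≤ G1.card + G2.card := by exact_mod_cast h1
  linarith

end Pool.Agent.H70N
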