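import Pool.Agent.H70N.Trunc

/-!
# Near-coincidences with bounded exponent: the count
-/

set_option autoImplicit false

namespace Pool.Agent.H70N

open Real Filter Set Asymptotics
open Pool.Agent.H491R3.PE Pool.Agent.TH709.NC

variable {a b : ℝ}

theorem UU_eq (ha : 1 < a) {x T : ℝ} (hx : 2 ≤ x) (hT : 2 * log x / log a ≤ T) :
    UU a b x T = NB a b x ∪ (UN a b x T ∪ UE a b x T) := by
  have hx0 : 0 < x := by linarith
  ext p
  simp only [UU, NB, UN, UE, mem_union, mem_ofPred_eq]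
  constructor
  · rintro ⟨h1, h2⟩
    rcases le_or_gt (a ^ p.1) (x ^ 2) with h3 | h3
    · exact Or.inl ⟨h2, h3⟩
    · by_cases h4 : a ^ p.1 = b ^ p.2
      · exact Or.inr (Or.inr ⟨h1, h3, h4⟩)
      · exact Or.inr (Or.inl ⟨h1, h2, h3, h4⟩)
  · rintro (⟨h1, h2⟩ | ⟨h1, h2, h3, h4⟩ | ⟨h1, h2, h3⟩)
    · refine ⟨?_, h1⟩
      have h3 := (pow_le_iff_log ha (by positivity) _).1 h2
      rw [Real.log_pow] at h3
      push_cast at h3
      exact h3.trans hT
    · exact ⟨h1, h2⟩
    · refine ⟨h1, ?_⟩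
      rw [h3, sub_self, abs_zero]
      exact hx0.le

/-- counting by parts -/
theorem UU_count (ha : 1 < a) (hb : 1 < b) {ε : ℝ} (hε : 0 < ε) : ∃ K : ℝ, 0 ≤ K ∧
    ∀ x : ℝ, 2 ≤ x → ∀ T : ℝ, 2 * log x / log a ≤ T → (UE a b x T).Finite →
      (UU a b x T).Finite ∧
      |((UU a b x T).ncard : ℝ) - log x ^ 2 / (log a * log b) - (UE a b x T).ncard| ≤
        ε * T + K * log x := by
  have hA : 0 < log a := log_pos ha
  obtain ⟨C₁, hC₁0, hC₁⟩ := NB_count ha hb
  obtain ⟨C₂, hC₂0, hC₂⟩ := UN_count ha hb hε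
  refine ⟨C₁ + C₂, by positivity, fun x hx T hT hE => ?_⟩
  have hlx0 : 0 < log x := log_pos (by linarith)
  have hT0 : 0 ≤ T := le_trans (by positivity) hT
  obtain ⟨f1, e1⟩ := hC₁ x hx
  obtain ⟨f2, e2⟩ := hC₂ x hx T hT0
  rw [UU_eq ha hx hT]
  have d1 : Disjoint (NB a b x) (UN a b x T ∪ UE a b x T) := by
    rw [Set.disjoint_left]
    rintro p ⟨-, h1⟩ (⟨-, -, h2, -⟩ | ⟨-, h2, -⟩) <;> linarith
  have d2 : Disjoint (UN a b x T) (UE a b x T) := by
    rw [Set.disjoint_left]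
    rintro p ⟨-, -, -, h1⟩ ⟨-, -, h2⟩
    exact h1 h2
  refine ⟨f1.union (f2.union hE), ?_⟩
  rw [Set.ncard_union_eq d1 f1 (f2.union hE), Set.ncard_union_eq d2 f2 hE]
  push_cast
  have h0 : (0 : ℝ) ≤ ((UN a b x T).ncard : ℝ) := Nat.cast_nonneg _
  have h1 : 0 ≤ C₂ * log x := by positivity
  have h2 : 0 ≤ ε * T := by positivity
  rw [abs_le] at e1 ⊢
  constructor <;> linarith [e1.1, e1.2]

/-- no exact coincidences in the irrational case -/
theorem UE_irr (ha : 1 < a) (hb : 1 < b) (hirr : Irrational (log a / log b)) {x T : ℝ}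
    (hx : 2 ≤ x) : UE a b x T = ∅ := by
  ext p
  simp only [UE, mem_ofPred_eq, Set.mem_empty_iff_false, iff_false]
  rintro ⟨-, h2, h3⟩
  refine pow_ne_pow ha hb hirr (n := p.1) (m := p.2) ?_ h3
  intro h
  have h4 : p.1 = 0 := congrArg Prod.fst h
  rw [h4, pow_zero] at h2
  nlinarith

/-- the exact coincidences in the rational case -/
theorem UE_rat (ha : 1 < a) (hb : 1 < b) {p q : ℕ} (hq : 1 ≤ q) (hpq : p.Coprime q)
    (h : log a / log b = p / q) {x T : ℝ} (hx : 2 ≤ x) (hT : 2 * log x / log a ≤ T) :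
    (UE a b x T).Finite ∧ |((UE a b x T).ncard : ℝ) - T / q| ≤ 2 * log x / log a + 1 := by
  have hA : 0 < log a := log_pos ha
  have hB : 0 < log b := log_pos hb
  have hlx0 : 0 < log x := log_pos (by linarith)
  have hq0 : (0 : ℝ) < q := by exact_mod_cast hq
  have hq1 : (1 : ℝ) ≤ q := by exact_mod_cast hq
  have hx0 : 0 < x := by linarith
  have hab : log a * q = p * log b := by
    rw [div_eq_div_iff hB.ne' hq0.ne'] at h
    exact h
  have hp : 1 ≤ p := by
    rcases Nat.eq_zero_or_pos p with h0 | h0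
    · exfalso
      rw [h0, Nat.cast_zero, zero_mul] at hab
      have : 0 < log a * q := by positivity
      linarith
    · exact h0
  have hT0 : 0 ≤ T := le_trans (by positivity) hT
  set Y := 2 * log x / log a / q with hY
  set Z := T / q with hZ
  have hY0 : 0 ≤ Y := by positivity
  have hYZ : Y ≤ Z := div_le_div_of_nonneg_right hT hq0.le
  have hYle : Y ≤ 2 * log x / log a := div_le_self (by positivity) hq1
  have hset : UE a b x T =
      ((Finset.Ioc ⌊Y⌋₊ ⌊Z⌋₊).image (fun g => (g * q, g * p)) : Finset (ℕ × ℕ)) := by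
    ext r
    simp only [UE, mem_ofPred_eq, Finset.mem_coe, Finset.mem_image, Finset.mem_Ioc]
    have hlog : a ^ r.1 = b ^ r.2 ↔ r.1 * p = r.2 * q := by
      rw [← (Real.log_injOn_pos).eq_iff (show (0 : ℝ) < a ^ r.1 by positivity)
        (show (0 : ℝ) < b ^ r.2 by positivity), Real.log_pow, Real.log_pow]
      constructor
      · intro h1
        have h2 : ((r.1 : ℝ) * p) * log b = ((r.2 : ℝ) * q) * log b := by
          calc ((r.1 : ℝ) * p) * log b = r.1 * (p * log b) := by ring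
            _ = (r.1 * log a) * q := by rw [← hab]; ring
            _ = _ := by rw [h1]; ring
        have h3 := mul_right_cancel₀ hB.ne' h2
        exact_mod_cast h3
      · intro h1
        have h2 : ((r.1 : ℝ) * p) = (r.2 : ℝ) * q := by exact_mod_cast h1
        have h3 : ((r.1 : ℝ) * log a) * q = (r.2 * log b) * q := by
          calc ((r.1 : ℝ) * log a) * q = r.1 * (log a * q) := by ring
            _ = (r.1 * p) * log b := by rw [hab]; ring
            _ = _ := by rw [h2]; ring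
        exact mul_right_cancel₀ hq0.ne' h3
    have hY' : ∀ g : ℕ, x ^ 2 < a ^ (g * q) ↔ ⌊Y⌋₊ < g := by
      intro g
      rw [lt_pow_iff_log ha (by positivity), Real.log_pow, Nat.floor_lt hY0, hY,
        div_lt_iff₀ hq0]
      push_cast
      rfl
    have hZ' : ∀ g : ℕ, ((g * q : ℕ) : ℝ) ≤ T ↔ g ≤ ⌊Z⌋₊ := by
      intro g
      rw [Nat.le_floor_iff (by positivity), hZ, le_div_iff₀ hq0]
      push_cast
      rfl
    constructor
    · rintro ⟨h1, h2, h3⟩
      have h4 := hlog.1 h3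
      have h5 : q ∣ r.1 := by
        have : q ∣ r.1 * p := ⟨r.2, by rw [h4]; ring⟩
        exact (Nat.Coprime.dvd_of_dvd_mul_right hpq.symm this)
      obtain ⟨g, hg⟩ := h5
      have h6 : r.2 = g * p := by
        have h7 : r.2 * q = g * p * q := by rw [← h4, hg]; ring
        exact Nat.eq_of_mul_eq_mul_right (by omega) h7
      have h8 : r.1 = g * q := by rw [hg]; ring
      refine ⟨g, ⟨(hY' g).1 (by rw [← h8]; exact h2), (hZ' g).1 (by rw [← h8]; exact h1)⟩, ?_⟩
      exact Prod.ext h8.symm h6.symm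
    · rintro ⟨g, ⟨h1, h2⟩, rfl⟩
      exact ⟨(hZ' g).2 h2, (hY' g).2 h1, hlog.2 (by ring)⟩
  rw [hset]
  refine ⟨Finset.finite_toSet _, ?_⟩
  have hinj : Function.Injective (fun g : ℕ => (g * q, g * p)) := by
    intro g g' hgg
    have : g * q = g' * q := congrArg Prod.fst hgg
    exact Nat.eq_of_mul_eq_mul_right (by omega) this
  rw [Set.ncard_coe_finset, Finset.card_image_of_injective _ hinj, Nat.card_Ioc,
    Nat.cast_sub (Nat.floor_le_floor hYZ)]
  have z1 := Nat.floor_le (show 0 ≤ Z from hY0.trans hYZ)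
  have z2 := Nat.lt_floor_add_one Z
  have y1 := Nat.floor_le hY0
  have y2 : (0 : ℝ) ≤ (⌊Y⌋₊ : ℝ) := Nat.cast_nonneg _
  rw [abs_le]
  constructor <;> linarith

/-- **Irrational case.** -/
theorem irr_count (ha : 1 < a) (hb : 1 < b) (hirr : Irrational (log a / log b)) {ε : ℝ}
    (hε : 0 < ε) : ∃ K : ℝ, 0 ≤ K ∧ ∀ x : ℝ, 2 ≤ x → ∀ T : ℝ, 2 * log x / log a ≤ T →
      (UU a b x T).Finite ∧
      |((UU a b x T).ncard : ℝ) - log x ^ 2 / (log a * log b)| ≤ ε * T + K * log x := by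
  obtain ⟨K, hK0, hK⟩ := UU_count ha hb hε
  refine ⟨K, hK0, fun x hx T hT => ?_⟩
  have hE : UE a b x T = ∅ := UE_irr ha hb hirr hx
  obtain ⟨h1, h2⟩ := hK x hx T hT (by rw [hE]; exact Set.finite_empty)
  rw [hE, Set.ncard_empty, Nat.cast_zero, sub_zero] at h2
  exact ⟨h1, h2⟩

/-- **Rational case.** -/
theorem rat_count (ha : 1 < a) (hb : 1 < b) {p q : ℕ} (hq : 1 ≤ q) (hpq : p.Coprime q)
    (h : log a / log b = p / q) {ε : ℝ}
    (hε : 0 < ε) : ∃ K : ℝ, 0 ≤ K ∧ ∀ x : ℝ, 2 ≤ x → ∀ T : ℝ, 2 * log x / log a ≤ T →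
      (UU a b x T).Finite ∧
      |((UU a b x T).ncard : ℝ) - log x ^ 2 / (log a * log b) - T / q| ≤ ε * T + K * log x := by
  have hA : 0 < log a := log_pos ha
  have hl2 : 0 < log 2 := log_pos (by norm_num)
  obtain ⟨K, hK0, hK⟩ := UU_count ha hb hε
  refine ⟨K + (2 / log a + 1 / log 2), by positivity, fun x hx T hT => ?_⟩
  obtain ⟨f, e⟩ := UE_rat ha hb hq hpq h hx hT
  obtain ⟨h1, h2⟩ := hK x hx T hT f
  refine ⟨h1, ?_⟩
  have hlx : log 2 ≤ log x := Real.log_le_log (by norm_num) hx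
  have e1 : 2 * log x / log a + 1 ≤ (2 / log a + 1 / log 2) * log x := by
    have e2 : (1 : ℝ) ≤ 1 / log 2 * log x := by
      rw [div_mul_eq_mul_div, le_div_iff₀ hl2]; linarith
    have e3 : (2 / log a + 1 / log 2) * log x = 2 * log x / log a + 1 / log 2 * log x := by ring
    rw [e3]
    linarith
  have e4 : (K + (2 / log a + 1 / log 2)) * log x =
      K * log x + (2 / log a + 1 / log 2) * log x := by ring
  rw [abs_le] at *
  rw [e4]
  constructor <;> linarith [h2.1, h2.2, e.1, e.2]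

/-- rational logarithmic ratio as a fraction in lowest terms -/
theorem exists_frac (ha : 1 < a) (hb : 1 < b) (h : ¬ Irrational (log a / log b)) :
    ∃ p q : ℕ, 1 ≤ q ∧ p.Coprime q ∧ log a / log b = p / q := by
  have hA : 0 < log a := log_pos ha
  have hB : 0 < log b := log_pos hb
  unfold Irrational at h
  push Not at h
  obtain ⟨r, hr⟩ := h
  have hr0 : (0 : ℝ) < (r : ℝ) := by rw [hr]; positivity
  have hr0' : 0 < r := by exact_mod_cast hr0
  have hnum : 0 < r.num := Rat.num_pos.2 hr0'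
  refine ⟨r.num.natAbs, r.den, r.den_pos, r.reduced, ?_⟩
  rw [← hr, Rat.cast_def]
  congr 1
  have h1 : ((r.num.natAbs : ℤ)) = r.num := Int.natAbs_of_nonneg hnum.le
  calc (r.num : ℝ) = ((r.num.natAbs : ℤ) : ℝ) := by rw [h1]
    _ = (r.num.natAbs : ℝ) := Int.cast_natCast _

/-- both cases, rough form -/
theorem rough (ha : 1 < a) (hb : 1 < b) : ∃ K : ℝ, 0 ≤ K ∧ ∀ x : ℝ, 2 ≤ x →
    ∀ T : ℝ, 2 * log x / log a ≤ T →
      |((UU a b x T).ncard : ℝ) - log x ^ 2 / (log a * log b)| ≤ 2 * T + K * log x := by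
  have hA : 0 < log a := log_pos ha
  by_cases hirr : Irrational (log a / log b)
  · obtain ⟨K, hK0, hK⟩ := irr_count ha hb hirr (ε := 1) one_pos
    refine ⟨K, hK0, fun x hx T hT => ?_⟩
    have hlx0 : 0 < log x := log_pos (by linarith)
    have hT0 : 0 ≤ T := le_trans (by positivity) hT
    have := (hK x hx T hT).2
    linarith
  · obtain ⟨p, q, hq, hpq, h⟩ := exists_frac ha hb hirr
    obtain ⟨K, hK0, hK⟩ := rat_count ha hb hq hpq h (ε := 1) one_pos
    refine ⟨K, hK0, fun x hx T hT => ?_⟩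
    have hlx0 : 0 < log x := log_pos (by linarith)
    have hT0 : 0 ≤ T := le_trans (by positivity) hT
    have hq1 : (1 : ℝ) ≤ q := by exact_mod_cast hq
    have h1 := (hK x hx T hT).2
    have h2 : T / q ≤ T := div_le_self hT0 hq1
    have h3 : 0 ≤ T / q := by positivity
    rw [abs_le] at *
    constructor <;> linarith [h1.1, h1.2]

end Pool.Agent.H70N
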